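import Mathlib

/-! The denominators. -/

set_option autoImplicit false

namespace Pool.Agent.V1112.HB

/-- The condition defining the primes which occur in the denominator `N n`. -/
def cond (n p : ℕ) : Prop := p.Prime ∧ p ∣ n ∧ p - 1 ≤ 2 * ((n / p - 1) % p)

open Classical in
/-- local factor of the denominator -/
noncomputable def fac (n p : ℕ) : ℕ := if cond n p then p else 1

/-- The denominator `N n`: the product of the primes `p` dividing `n` such that
`2 * ((n / p - 1) mod p) ≥ p - 1`. -/
noncomputable def N (n : ℕ) : ℕ := ∏ p ∈ Finset.range (n + 1), fac n p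

lemma fac_of {n p : ℕ} (h : cond n p) : fac n p = p := if_pos h

lemma fac_not {n p : ℕ} (h : ¬ cond n p) : fac n p = 1 := if_neg h

lemma N_eq (n K : ℕ) (hn : 0 < n) (hK : n + 1 ≤ K) : N n = ∏ p ∈ Finset.range K, fac n p := by
  unfold N
  refine Finset.prod_subset (Finset.range_mono hK) fun p _ hp => ?_
  rw [Finset.mem_range, not_lt] at hp
  apply fac_not
  rintro ⟨_, h, _⟩
  have := Nat.le_of_dvd hn h
  omega

lemma fac_pos (n p : ℕ) : 0 < fac n p := by
  by_cases h : cond n p
  · rw [fac_of h]
    exact h.1.pos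
  · rw [fac_not h]
    exact one_pos

lemma N_pos (n : ℕ) : 0 < N n := Finset.prod_pos fun p _ => fac_pos n p

lemma N_one : N 1 = 1 := by
  unfold N
  refine Finset.prod_eq_one fun p _ => fac_not ?_
  rintro ⟨h1, h2, _⟩
  exact h1.one_lt.ne' (Nat.dvd_one.1 h2)

lemma fac_coprime (n p q : ℕ) (m : ℕ) (h : p ≠ q) : Nat.Coprime (fac n p) (fac m q) := by
  by_cases h1 : cond n p
  · by_cases h2 : cond m q
    · rw [fac_of h1, fac_of h2]
      exact (Nat.coprime_primes h1.1 h2.1).2 h
    · rw [fac_not h2]
      exact Nat.coprime_one_right _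
  · rw [fac_not h1]
    exact Nat.coprime_one_left _

lemma dvd_N {n p : ℕ} (hn : 0 < n) (h : cond n p) : p ∣ N n := by
  have hp : p ∈ Finset.range (n + 1) := by
    have := Nat.le_of_dvd hn h.2.1
    rw [Finset.mem_range]
    omega
  have h2 := Finset.dvd_prod_of_mem (fac n) hp
  rw [fac_of h] at h2
  exact h2

lemma dvd_of_fac (n T : ℕ) (h : ∀ p, cond n p → p ∣ T) : N n ∣ T := by
  unfold N
  apply Finset.prod_dvd_of_isRelPrime
  · intro p _ q _ hpq
    exact Nat.coprime_iff_isRelPrime.1 (fac_coprime n p q n hpq)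
  · intro p _
    by_cases h1 : cond n p
    · rw [fac_of h1]
      exact h p h1
    · rw [fac_not h1]
      exact one_dvd _

lemma dvd_of_fac2 (n m T : ℕ) (hn : 0 < n) (hm : 0 < m)
    (h1 : ∀ p, cond n p → p ∣ T) (h2 : ∀ p, cond m p → p ∣ T)
    (h3 : ∀ p, cond n p → cond m p → p * p ∣ T) : N n * N m ∣ T := by
  rw [N_eq n (n + m + 1) hn (by omega), N_eq m (n + m + 1) hm (by omega),
    ← Finset.prod_mul_distrib]
  apply Finset.prod_dvd_of_isRelPrime
  · intro p _ q _ hpq
    apply Nat.coprime_iff_isRelPrime.1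
    exact Nat.Coprime.mul_left (Nat.Coprime.mul_right (fac_coprime _ _ _ _ hpq)
      (fac_coprime _ _ _ _ hpq)) (Nat.Coprime.mul_right (fac_coprime _ _ _ _ hpq)
      (fac_coprime _ _ _ _ hpq))
  · intro p _
    by_cases hn1 : cond n p
    · by_cases hm1 : cond m p
      · rw [fac_of hn1, fac_of hm1]
        exact h3 p hn1 hm1
      · rw [fac_of hn1, fac_not hm1, mul_one]
        exact h1 p hn1
    · by_cases hm1 : cond m p
      · rw [fac_not hn1, fac_of hm1, one_mul]
        exact h2 p hm1
      · rw [fac_not hn1, fac_not hm1, mul_one]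
        exact one_dvd _

/-- shape of a number `K` with `p ∣ K + 1` -/
lemma shape {K p : ℕ} (hp : 0 < p) (h : p ∣ K + 1) :
    K = p * (K / p) + (p - 1) ∧ (K + 1) / p = K / p + 1 := by
  obtain ⟨c, hc⟩ := h
  have hc1 : 1 ≤ c := by
    rcases Nat.eq_zero_or_pos c with h | h
    · subst h; omega
    · exact h
  obtain ⟨d, rfl⟩ : ∃ d, c = d + 1 := ⟨c - 1, by omega⟩
  have h1 : K = p * d + (p - 1) := by
    have : p * (d + 1) = p * d + p := by ring
    omega
  have h2 : K / p = d := by
    rw [h1, Nat.mul_add_div hp, Nat.div_eq_of_lt (by omega), add_zero]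
  have h3 : (K + 1) / p = d + 1 := by
    rw [hc, Nat.mul_div_cancel_left _ hp]
  rw [h2, h3]
  exact ⟨h1, rfl⟩

lemma cond_iff {K p : ℕ} (hp : p.Prime) (h : p ∣ K + 1) :
    cond (K + 1) p ↔ p - 1 ≤ 2 * ((K / p) % p) := by
  unfold cond
  rw [(shape hp.pos h).2, Nat.add_sub_cancel]
  exact ⟨fun h => h.2.2, fun h' => ⟨hp, h, h'⟩⟩

theorem N_A (K M : ℕ) : N (K + 1) ∣ Nat.choose M K * N (M + 1) := by
  apply dvd_of_fac
  intro p hc
  have hp := hc.1
  have hpK := hc.2.1
  have : Fact p.Prime := ⟨hp⟩
  by_cases hd : p ∣ Nat.choose M K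
  · exact Dvd.dvd.mul_right hd _
  · have hK := shape hp.pos hpK
    have hKm : K % p = p - 1 := by
      rw [hK.1, Nat.mul_add_mod]
      exact Nat.mod_eq_of_lt (by have := hp.pos; omega)
    have hL := Choose.choose_modEq_choose_mod_mul_choose_div_nat (n := M) (k := K) (p := p)
    have h1 : ¬ p ∣ Nat.choose (M % p) (K % p) * Nat.choose (M / p) (K / p) := by
      intro h
      exact hd ((Nat.ModEq.dvd_iff hL dvd_rfl).2 h)
    have h2 : ¬ p ∣ Nat.choose (M % p) (K % p) := fun h => h1 (Dvd.dvd.mul_right h _)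
    have h3 : ¬ p ∣ Nat.choose (M / p) (K / p) := fun h => h1 (Dvd.dvd.mul_left h _)
    have h4 : K % p ≤ M % p := by
      by_contra hcon
      rw [not_le] at hcon
      apply h2
      rw [Nat.choose_eq_zero_of_lt hcon]
      exact dvd_zero _
    have h5 : M % p = p - 1 := by
      have := Nat.mod_lt M hp.pos
      omega
    have h6 : p ∣ M + 1 := by
      refine ⟨M / p + 1, ?_⟩
      have h7 := Nat.div_add_mod M p
      have h8 := hp.pos
      have h9 : p * (M / p + 1) = p * (M / p) + p := by ring
      omega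
    have hL2 := Choose.choose_modEq_choose_mod_mul_choose_div_nat (n := M / p) (k := K / p)
      (p := p)
    have h7 : (K / p) % p ≤ (M / p) % p := by
      by_contra hcon
      rw [not_le] at hcon
      apply h3
      rw [Nat.choose_eq_zero_of_lt hcon, zero_mul] at hL2
      exact (Nat.modEq_zero_iff_dvd).1 hL2
    have h8 : cond (M + 1) p := by
      rw [cond_iff hp h6]
      rw [cond_iff hp hpK] at hc
      omega
    exact Dvd.dvd.mul_left (dvd_N (Nat.succ_pos _) h8) _

lemma T_symm (K M : ℕ) : (M + 1) * Nat.choose (M + K + 1) (M + 1) =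
    (K + 1) * Nat.choose (M + K + 1) (K + 1) := by
  have h1 := Nat.add_one_mul_choose_eq (M + K) M
  have h2 := Nat.add_one_mul_choose_eq (M + K) K
  have h3 : Nat.choose (M + K) M = Nat.choose (M + K) K := by
    rw [Nat.choose_symm_add]
  rw [h3] at h1
  rw [mul_comm, ← h1, h2, mul_comm]

theorem N_B (K M : ℕ) : N (K + 1) * N (M + 1) ∣ (M + 1) * Nat.choose (M + K + 1) (M + 1) := by
  apply dvd_of_fac2 _ _ _ (Nat.succ_pos _) (Nat.succ_pos _)
  · intro p hc
    rw [T_symm]
    exact Dvd.dvd.mul_right hc.2.1 _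
  · intro p hc
    exact Dvd.dvd.mul_right hc.2.1 _
  · intro p hK hM
    have hp := hK.1
    have hp0 := hp.pos
    have : Fact p.Prime := ⟨hp⟩
    have sK := shape hp0 hK.2.1
    have sM := shape hp0 hM.2.1
    have cK := (cond_iff hp hK.2.1).1 hK
    have cM := (cond_iff hp hM.2.1).1 hM
    have lx := Nat.mod_lt (K / p) hp0
    have ly := Nat.mod_lt (M / p) hp0
    have aux : ∀ L : ℕ, p ∣ L + 1 → (L / p) % p = p - 1 → p * p ∣ L + 1 := by
      intro L hL h
      have s := shape hp0 hL
      have h1 : p ∣ L / p + 1 := by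
        refine ⟨L / p / p + 1, ?_⟩
        have h7 := Nat.div_add_mod (L / p) p
        have h9 : p * (L / p / p + 1) = p * (L / p / p) + p := by ring
        omega
      have h2 : L + 1 = p * (L / p + 1) := by
        have h9 : p * (L / p + 1) = p * (L / p) + p := by ring
        omega
      rw [h2]
      exact Nat.mul_dvd_mul_left p h1
    by_cases hx : (K / p) % p = p - 1
    · rw [T_symm]
      exact Dvd.dvd.mul_right (aux K hK.2.1 hx) _
    · by_cases hy : (M / p) % p = p - 1
      · exact Dvd.dvd.mul_right (aux M hM.2.1 hy) _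
      · apply Nat.mul_dvd_mul hM.2.1
        set a := M / p with ha
        set b := K / p with hb
        have e0 : M + K + 1 = p * (a + b + 1) + (p - 1) := by
          have h9 : p * (a + b + 1) = p * a + p * b + p := by ring
          omega
        have e1 : (M + K + 1) / p = a + b + 1 := by
          rw [e0, Nat.mul_add_div hp0, Nat.div_eq_of_lt (by omega), add_zero]
        have e2 : (M + 1) / p = a + 1 := sM.2
        have hL := Choose.choose_modEq_choose_mod_mul_choose_div_nat (n := M + K + 1)
          (k := M + 1) (p := p)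
        rw [e1, e2] at hL
        have hL2 := Choose.choose_modEq_choose_mod_mul_choose_div_nat (n := a + b + 1)
          (k := a + 1) (p := p)
        have e3 : (a + b + 1) % p = a % p + b % p + 1 - p := by
          have h1 : a + b + 1 = p * (a / p + b / p + 1) + (a % p + b % p + 1 - p) := by
            have h2 := Nat.div_add_mod a p
            have h3 := Nat.div_add_mod b p
            have h9 : p * (a / p + b / p + 1) = p * (a / p) + p * (b / p) + p := by ring
            omega
          rw [h1, Nat.mul_add_mod]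
          exact Nat.mod_eq_of_lt (by omega)
        have e4 : (a + 1) % p = a % p + 1 := by
          have h1 : a + 1 = p * (a / p) + (a % p + 1) := by
            have h2 := Nat.div_add_mod a p
            omega
          rw [h1, Nat.mul_add_mod]
          exact Nat.mod_eq_of_lt (by omega)
        have h3 : Nat.choose ((a + b + 1) % p) ((a + 1) % p) = 0 := by
          rw [e3, e4]
          exact Nat.choose_eq_zero_of_lt (by omega)
        rw [h3, zero_mul] at hL2
        have h4 := (Nat.modEq_zero_iff_dvd).1 hL2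
        exact (Nat.ModEq.dvd_iff hL dvd_rfl).2 (Dvd.dvd.mul_left h4 _)

/-- The denominators are unbounded in the appropriate sense. -/
theorem N_unb (m : ℕ) (hm : 0 < m) : ∃ K : ℕ, ¬ (N (K + 1) * N (K + 1) ∣ m * (K + 1)) := by
  obtain ⟨p, hpm, hp⟩ := Nat.exists_infinite_primes (m + 3)
  obtain ⟨c, hc⟩ : ∃ c, p = 2 * c + 1 := by
    rcases hp.eq_two_or_odd' with h | h
    · omega
    · exact h
  have hp0 := hp.pos
  have hcp : 0 < c := by omega
  refine ⟨p * (c + 1) - 1, ?_⟩
  have h1 : p * (c + 1) - 1 + 1 = p * (c + 1) := by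
    have : 0 < p * (c + 1) := Nat.mul_pos hp0 (Nat.succ_pos _)
    omega
  rw [h1]
  have h2 : cond (p * (c + 1)) p := by
    refine ⟨hp, dvd_mul_right _ _, ?_⟩
    rw [Nat.mul_div_cancel_left _ hp0, Nat.add_sub_cancel, Nat.mod_eq_of_lt (by omega)]
    omega
  have h3 := dvd_N (Nat.mul_pos hp0 (Nat.succ_pos _)) h2
  intro h
  have h4 : p * p ∣ m * (p * (c + 1)) := dvd_trans (Nat.mul_dvd_mul h3 h3) h
  have h5 : p ∣ m * (c + 1) := by
    have e : m * (p * (c + 1)) = p * (m * (c + 1)) := by ring
    rw [e] at h4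
    exact Nat.dvd_of_mul_dvd_mul_left hp0 h4
  rcases (Nat.Prime.dvd_mul hp).1 h5 with h6 | h6
  · have := Nat.le_of_dvd hm h6
    omega
  · have := Nat.le_of_dvd (Nat.succ_pos _) h6
    omega

end Pool.Agent.V1112.HB
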