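import Pool.Agent.V1112.HB.Model

/-! Modes in the rank one Heisenberg vertex algebra; the conformal vector. -/

set_option autoImplicit false

namespace Pool.Agent.V1112.HB

open MvPolynomial Pool.Agent.V1112.HV

theorem bc_zero_right (l : ℤ) : bc l 0 = 1 := by simp [bc]

theorem bc_nat (n i : ℕ) : bc (n : ℤ) i = (Nat.choose n i : ℚ) := by
  unfold bc
  rw [Ring.choose_natCast]
  simp

theorem bc_0 (i : ℕ) (hi : i ≠ 0) : bc 0 i = 0 := by
  have := bc_nat 0 i
  rw [Nat.choose_eq_zero_of_lt (by omega)] at this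
  simpa using this

theorem bc_1 (i : ℕ) (hi : 2 ≤ i) : bc 1 i = 0 := by
  have := bc_nat 1 i
  rw [Nat.choose_eq_zero_of_lt (by omega)] at this
  simpa using this

theorem bc_one_right (r : ℤ) : bc r 1 = r := by
  simp [bc]

theorem bc_three (r : ℤ) : bc r 3 = (r : ℚ) * (r - 1) * (r - 2) / 6 := by
  unfold bc
  have h := Ring.descPochhammer_eq_factorial_smul_choose r 3
  have h2 : (descPochhammer ℤ 3).smeval r = r * (r - 1) * (r - 2) := by
    rw [← Polynomial.eval_eq_smeval, descPochhammer_succ_eval, descPochhammer_succ_eval,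
      descPochhammer_succ_eval, descPochhammer_zero]
    simp
  rw [h2] at h
  have h3 : r * (r - 1) * (r - 2) = 6 * Ring.choose r 3 := by
    rw [h]
    simp [Nat.factorial]
  have h4 : (r : ℚ) * (r - 1) * (r - 2) = 6 * ((Ring.choose r 3 : ℤ) : ℚ) := by
    exact_mod_cast h3
  rw [h4]
  ring

lemma bc_neg (l i : ℕ) : bc (-(l : ℤ) - 1) i = (-1) ^ i * (Nat.choose (l + i) i : ℚ) := by
  unfold bc
  have e : (-(l : ℤ) - 1) = -((l : ℤ) + 1) := by ring
  rw [e, Ring.choose_neg]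
  have h : ((l : ℤ) + 1) + i - 1 = ((l + i : ℕ) : ℤ) := by push_cast; ring
  rw [h, Ring.choose_natCast]
  rcases Nat.even_or_odd i with h | h
  · rw [Int.negOnePow_even (i : ℤ) (by exact_mod_cast h), h.neg_one_pow]
    simp
  · rw [Int.negOnePow_odd (i : ℤ) (by exact_mod_cast h), h.neg_one_pow]
    simp

/-- the commutator formula -/
theorem comm_gen (A : VertexAlgebra PP) (a b w : PP) (l m : ℤ) :
    ∑ᶠ i : ℕ, bc l i • A.Y (A.Y a (0 + i) b) (l + m - i) w =
      A.Y a l (A.Y b m w) - A.Y b m (A.Y a l w) := by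
  rw [A.borcherds a b w l m 0, finsum_eq_single _ 0]
  · simp [bc_zero_right]
  · intro i hi
    rw [bc_0 i hi]
    simp

/-- The modes of `X_l * b`. -/
theorem Ymul (A : VertexAlgebra PP) (hA : Good A) (l : ℕ) (b : PP) (m : ℤ) (v : PP) :
    A.Y (X l * b) m v = ∑ᶠ i : ℕ, (Nat.choose (l + i) i : ℚ) •
      (hOp (-(l : ℤ) - 1 - i) (A.Y b (m + i) v) +
        (-1 : ℚ) ^ l • A.Y b (m - l - 1 - i) (hOp i v)) := by
  obtain ⟨h1, h2, h3⟩ := hA
  have hb := A.borcherds (X 0) b v 0 m (-(l : ℤ) - 1)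
  rw [finsum_eq_single _ 0] at hb
  · rw [bc_zero_right, h2] at hb
    have e1 : (-(l : ℤ) - 1 + ((0 : ℕ) : ℤ)) = -(l : ℤ) - 1 := by simp
    have e2 : (0 : ℤ) + m - ((0 : ℕ) : ℤ) = m := by simp
    rw [e1, e2, hOp_neg, one_smul] at hb
    rw [hb]
    apply finsum_congr
    intro i
    rw [bc_neg, ← mul_assoc, ← mul_pow]
    have e3 : ((-1 : ℚ) * -1) ^ i = 1 := by norm_num
    rw [e3, one_mul]
    congr 1
    have e4 : (0 : ℤ) + (-(l : ℤ) - 1) - i = -(l : ℤ) - 1 - i := by ring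
    have e5 : m + (-(l : ℤ) - 1) - i = m - l - 1 - i := by ring
    have e6 : (0 : ℤ) + i = i := by ring
    rw [e4, e5, e6]
    have e7 : (-1 : ℚ) ^ (-(l : ℤ) - 1) = -((-1 : ℚ) ^ l) := by
      rw [zpow_sub₀ (by norm_num), zpow_neg, zpow_natCast, zpow_one]
      rcases neg_one_pow_eq_or ℚ l with h | h
      · rw [h]; norm_num
      · rw [h]; norm_num
    rw [e7, neg_smul, sub_neg_eq_add]
  · intro i hi
    rw [bc_0 i hi, zero_smul]

theorem Ymul0 (A : VertexAlgebra PP) (hA : Good A) (b : PP) (m : ℤ) (v : PP) :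
    A.Y (X 0 * b) m v = ∑ᶠ i : ℕ,
      (hOp (-1 - i) (A.Y b (m + i) v) + A.Y b (m - 1 - i) (hOp i v)) := by
  rw [Ymul A hA 0 b m v]
  apply finsum_congr
  intro i
  simp

/-- finite form of the sum -/
theorem Ymul0_fin (A : VertexAlgebra PP) (hA : Good A) (b : PP) (m : ℤ) (v : PP) :
    ∃ M₀ : ℕ, ∀ M : ℕ, M₀ ≤ M → A.Y (X 0 * b) m v = ∑ i ∈ Finset.range M,
      (hOp (-1 - i) (A.Y b (m + i) v) + A.Y b (m - 1 - i) (hOp i v)) := by
  obtain ⟨N1, hN1⟩ := A.trunc b v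
  obtain ⟨N2, hN2⟩ := fl v
  refine ⟨(max (N1 - m) N2).toNat, fun M hM => ?_⟩
  rw [Ymul0 A hA b m v, finsum_eq_sum_of_support_subset]
  intro i hi
  rw [Finset.coe_range, Set.mem_Iio]
  by_contra hcon
  push Not at hcon
  apply hi
  have h1 : N1 ≤ m + (i : ℤ) := by
    have := le_max_left (N1 - m) N2
    omega
  have h2 : N2 ≤ (i : ℤ) := by
    have := le_max_right (N1 - m) N2
    omega
  show hOp (-1 - i) (A.Y b (m + i) v) + A.Y b (m - 1 - i) (hOp i v) = 0
  rw [hN1 _ h1, hN2 _ h2, map_zero, map_zero, add_zero]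

/-- The conformal vector. -/
noncomputable def om : PP := C (1 / 2) * (X 0 * X 0)

theorem om_eq (A : VertexAlgebra PP) (hA : Good A) (m : ℤ) (v : PP) :
    A.Y om m v = (1 / 2 : ℚ) •
      ∑ᶠ i : ℕ, (hOp (-1 - i) (hOp (m + i) v) + hOp (m - 1 - i) (hOp i v)) := by
  have h := Ymul0 A hA (X 0) m v
  rw [hA.2.1] at h
  rw [← h]
  have e : om = (1 / 2 : ℚ) • (X 0 * X 0 : PP) := by
    unfold om
    rw [MvPolynomial.smul_eq_C_mul]
  rw [e, map_smul]
  rfl

lemma hOp_X0 (n : ℤ) (hn : 0 ≤ n) : hOp n (X 0 : PP) = if n = 1 then 1 else 0 := by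
  rcases tri n with ⟨l, rfl⟩ | rfl | ⟨l, rfl⟩
  · omega
  · rw [hOp_zero, if_neg (by norm_num)]
  · rw [hOp_pos, pderiv_X]
    by_cases h : l = 0
    · subst h
      rw [Pi.single_eq_same]
      norm_num
    · rw [Pi.single_eq_of_ne (Ne.symm h), smul_zero, if_neg (by omega)]

lemma hOp_om (n : ℤ) (hn : 0 ≤ n) : hOp n om = if n = 1 then X 0 else 0 := by
  rcases tri n with ⟨l, rfl⟩ | rfl | ⟨l, rfl⟩
  · omega
  · rw [hOp_zero, if_neg (by norm_num)]
  · unfold om
    rw [hOp_pos, pderiv_C_mul, Derivation.leibniz, pderiv_X]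
    by_cases h : l = 0
    · subst h
      rw [Pi.single_eq_same]
      have e : ((0 : ℕ) : ℤ) + 1 = 1 := by norm_num
      have e2 : (C (1 / 2) : PP) * 2 = 1 := by
        rw [show (2 : PP) = C 2 from (map_ofNat C 2).symm, ← C_mul]
        norm_num
      rw [if_pos e, smul_eq_mul, mul_one, ← two_mul, ← mul_assoc, e2, one_mul]
      norm_num
    · rw [Pi.single_eq_of_ne (Ne.symm h), smul_zero, add_zero, mul_zero, smul_zero,
        if_neg (by omega)]

end Pool.Agent.V1112.HB
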