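import Pool.Agent.V1112.HB.Vir

/-! The invariant bilinear form on the rank one Heisenberg vertex operator algebra. -/

set_option autoImplicit false
set_option linter.unusedSectionVars false

namespace Pool.Agent.V1112.HB

open MvPolynomial Pool.Agent.V1112.HV

/-- the local factors of the norm of a monomial -/
noncomputable def wf (l n : ℕ) : ℚ := (-1) ^ n * (n.factorial : ℚ) * ((l : ℚ) + 1) ^ n

/-- the norm of a monomial -/
noncomputable def wgt (s : ℕ →₀ ℕ) : ℚ := s.prod wf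

lemma wf_zero (l : ℕ) : wf l 0 = 1 := by simp [wf]

lemma wf_succ (l n : ℕ) : wf l (n + 1) = -(((n : ℚ) + 1) * ((l : ℚ) + 1)) * wf l n := by
  unfold wf
  rw [Nat.factorial_succ]
  push_cast
  ring

lemma wf_ne (l n : ℕ) : wf l n ≠ 0 := by
  unfold wf
  have h1 : ((-1 : ℚ)) ^ n ≠ 0 := pow_ne_zero _ (by norm_num)
  have h2 : (n.factorial : ℚ) ≠ 0 := by exact_mod_cast Nat.factorial_ne_zero n
  have h3 : ((l : ℚ) + 1) ^ n ≠ 0 := pow_ne_zero _ (by positivity)
  exact mul_ne_zero (mul_ne_zero h1 h2) h3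

lemma wgt_ne (s : ℕ →₀ ℕ) : wgt s ≠ 0 := by
  unfold wgt Finsupp.prod
  exact Finset.prod_ne_zero_iff.2 fun i _ => wf_ne _ _

lemma wgt_add_single (s : ℕ →₀ ℕ) (l : ℕ) :
    wgt (s + Finsupp.single l 1 : ℕ →₀ ℕ) = -(((s l : ℚ) + 1) * ((l : ℚ) + 1)) * wgt s := by
  have h1 : wgt s = ∏ i ∈ insert l s.support, wf i (s i) :=
    Finsupp.prod_of_support_subset s (Finset.subset_insert _ _) wf (fun i _ => wf_zero i)
  have h2 : wgt (s + Finsupp.single l 1 : ℕ →₀ ℕ) =
      ∏ i ∈ insert l s.support, wf i ((s + Finsupp.single l 1 : ℕ →₀ ℕ) i) := by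
    apply Finsupp.prod_of_support_subset _ _ wf (fun i _ => wf_zero i)
    intro i hi
    rw [Finsupp.mem_support_iff] at hi
    by_cases h : i = l
    · rw [h]
      exact Finset.mem_insert_self _ _
    · rw [Finsupp.add_apply, Finsupp.single_eq_of_ne h, add_zero] at hi
      exact Finset.mem_insert_of_mem (Finsupp.mem_support_iff.2 hi)
  have hl : l ∈ insert l s.support := Finset.mem_insert_self _ _
  rw [h1, h2, ← Finset.mul_prod_erase _ _ hl, ← Finset.mul_prod_erase _ (fun i => wf i (s i)) hl,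
    ← mul_assoc]
  congr 1
  · rw [Finsupp.add_apply, Finsupp.single_eq_same, wf_succ]
  · refine Finset.prod_congr rfl fun i hi => ?_
    rw [Finsupp.add_apply, Finsupp.single_eq_of_ne (Finset.ne_of_mem_erase hi), add_zero]

/-- The bilinear form. -/
noncomputable def BB : PP →ₗ[ℚ] PP →ₗ[ℚ] ℚ :=
  (basisMonomials ℕ ℚ).constr ℚ (fun s => wgt s • lcoeff ℚ s)

lemma BB_mono (s : ℕ →₀ ℕ) (q : PP) : BB (monomial s 1) q = wgt s * coeff s q := by
  have h : BB (monomial s 1) = wgt s • lcoeff ℚ s := by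
    have := (basisMonomials ℕ ℚ).constr_basis ℚ (fun s => wgt s • lcoeff ℚ s) s
    rw [coe_basisMonomials] at this
    exact this
  rw [h]
  rfl

lemma BB_symm (p q : PP) : BB p q = BB q p := by
  have h : BB = BB.flip := by
    apply (basisMonomials ℕ ℚ).ext
    intro s
    apply (basisMonomials ℕ ℚ).ext
    intro t
    rw [coe_basisMonomials, LinearMap.flip_apply, BB_mono, BB_mono, coeff_monomial,
      coeff_monomial]
    by_cases h : t = s
    · rw [h]
    · rw [if_neg h, if_neg (Ne.symm h), mul_zero, mul_zero]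
  have h2 := congrArg (fun D : PP →ₗ[ℚ] PP →ₗ[ℚ] ℚ => D p q) h
  exact h2

lemma BB_nondeg (q : PP) (h : ∀ p, BB q p = 0) : q = 0 := by
  rw [MvPolynomial.eq_zero_iff]
  intro s
  have h1 := h (monomial s 1)
  rw [BB_symm, BB_mono] at h1
  exact (mul_eq_zero.1 h1).resolve_left (wgt_ne s)

lemma BB_one : BB (1 : PP) 1 = 1 := by
  have e : (1 : PP) = monomial 0 1 := rfl
  have h := BB_mono 0 (1 : PP)
  rw [← e] at h
  rw [h, MvPolynomial.coeff_zero_one, mul_one]
  rfl

lemma BB_X (l : ℕ) (p q : PP) : BB (hOp (-(l : ℤ) - 1) p) q = - BB p (hOp ((l : ℤ) + 1) q) := by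
  have h : BB ∘ₗ hOp (-(l : ℤ) - 1) = -(BB.compl₂ (hOp ((l : ℤ) + 1))) := by
    apply (basisMonomials ℕ ℚ).ext
    intro s
    apply LinearMap.ext
    intro q
    rw [coe_basisMonomials, LinearMap.comp_apply, LinearMap.neg_apply, LinearMap.neg_apply,
      LinearMap.compl₂_apply, hOp_neg, hOp_pos]
    have e : (X l * monomial s 1 : PP) = monomial (s + Finsupp.single l 1) 1 := by
      rw [X, monomial_mul, mul_one, add_comm]
    rw [e, BB_mono, BB_mono, wgt_add_single, coeff_smul, coeff_pderiv, smul_eq_mul]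
    ring
  have h2 := congrArg (fun D : PP →ₗ[ℚ] PP →ₗ[ℚ] ℚ => D p q) h
  exact h2

theorem BB_h (n : ℤ) (p q : PP) : BB (hOp n p) q = - BB p (hOp (-n) q) := by
  rcases tri n with ⟨l, rfl⟩ | rfl | ⟨l, rfl⟩
  · have e : -(-(l : ℤ) - 1) = (l : ℤ) + 1 := by ring
    rw [e]
    exact BB_X l p q
  · rw [hOp_zero, neg_zero, hOp_zero, map_zero, map_zero, LinearMap.zero_apply, neg_zero]
  · have e : -((l : ℤ) + 1) = -(l : ℤ) - 1 := by ring
    rw [e, BB_symm, BB_symm p, BB_X, neg_neg]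

section inv

variable (A : VertexAlgebra PP) (hA : Good A)

include hA

lemma L1_X0 (a : PP) : A.Y om 2 (X 0 * a) = X 0 * A.Y om 2 a := by
  have h := om_h A hA 2 (-((0 : ℕ) : ℤ) - 1) a
  rw [hOp_neg, hOp_neg] at h
  have e : (2 : ℤ) + (-((0 : ℕ) : ℤ) - 1) - 1 = 0 := by norm_num
  rw [e, hOp_zero, smul_zero] at h
  exact sub_eq_zero.1 h

lemma L1_TT (a : PP) : A.Y om 2 (TT a) = TT (A.Y om 2 a) + (2 : ℚ) • NN a := by
  have h := vir A hA 1 (-1) a
  have e1 : (1 : ℤ) + 1 = 2 := by norm_num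
  have e2 : (-1 : ℤ) + 1 = 0 := by norm_num
  have e3 : (1 : ℤ) + -1 + 1 = 1 := by norm_num
  have e4 : (1 : ℤ) + -1 = 0 := by norm_num
  rw [e1, e2, e3, e4, om_zero A hA, om_one A hA] at h
  have h2 : A.Y om 2 (TT a) = TT (A.Y om 2 a) +
      ((((1 : ℤ) : ℚ) - ((-1 : ℤ) : ℚ)) • NN a +
      (if (0 : ℤ) = 0 then (((1 : ℤ) : ℚ) ^ 3 - ((1 : ℤ) : ℚ)) / 12 * 1 else 0) • a) := by
    rw [add_comm]
    exact eq_add_of_sub_eq h
  rw [h2]
  norm_num

lemma NN_L1 (a : PP) : NN (A.Y om 2 a) = A.Y om 2 (NN a) - A.Y om 2 a := by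
  have h := vir A hA 0 1 a
  have e1 : (1 : ℤ) + 1 = 2 := by norm_num
  have e2 : (0 : ℤ) + 1 = 1 := by norm_num
  rw [e2, e1, om_one A hA] at h
  have h2 : NN (A.Y om 2 a) = A.Y om 2 (NN a) +
      ((((0 : ℤ) : ℚ) - ((1 : ℤ) : ℚ)) • A.Y om 2 a +
      (if (1 : ℤ) = 0 then (((0 : ℤ) : ℚ) ^ 3 - ((0 : ℤ) : ℚ)) / 12 * 1 else 0) • a) := by
    rw [add_comm]
    exact eq_add_of_sub_eq h
  rw [h2, if_neg (by norm_num), zero_smul, add_zero]
  push_cast
  module

lemma NN_TT (a : PP) : NN (TT a) = TT (NN a) + TT a := by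
  have h := vir A hA 0 (-1) a
  have e1 : (0 : ℤ) + 1 = 1 := by norm_num
  have e2 : (-1 : ℤ) + 1 = 0 := by norm_num
  have e3 : (0 : ℤ) + -1 + 1 = 0 := by norm_num
  rw [e1, e2, e3, om_one A hA, om_zero A hA] at h
  have h2 : NN (TT a) = TT (NN a) +
      ((((0 : ℤ) : ℚ) - ((-1 : ℤ) : ℚ)) • TT a +
      (if (0 : ℤ) + -1 = 0 then (((0 : ℤ) : ℚ) ^ 3 - ((0 : ℤ) : ℚ)) / 12 * 1 else 0) • a) := by
    rw [add_comm]
    exact eq_add_of_sub_eq h
  rw [h2, if_neg (by norm_num), zero_smul, add_zero]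
  push_cast
  module

lemma NN_L1_pow (i : ℕ) (k : ℚ) (a : PP) (ha : NN a = k • a) :
    NN ((A.Y om 2 ^ i) a) = (k - i) • (A.Y om 2 ^ i) a := by
  induction i with
  | zero =>
    rw [pow_zero]
    push_cast
    rw [sub_zero]
    exact ha
  | succ i ih =>
    rw [pow_succ', Module.End.mul_apply, NN_L1 A hA, ih, map_smul]
    push_cast
    module

lemma L1_pow_zero (i k : ℕ) (hik : k < i) (a : PP) (ha : NN a = (k : ℚ) • a) :
    (A.Y om 2 ^ i) a = 0 := by
  have h := NN_L1_pow A hA i k a ha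
  have h2 : (A.Y om 2 ^ i) a ∈ LinearMap.ker
      (NN.toLinearMap - (((k : ℤ) - (i : ℤ) : ℤ) : ℚ) • (LinearMap.id : PP →ₗ[ℚ] PP)) := by
    rw [LinearMap.mem_ker, LinearMap.sub_apply]
    show NN ((A.Y om 2 ^ i) a) - (((k : ℤ) - (i : ℤ) : ℤ) : ℚ) • (A.Y om 2 ^ i) a = 0
    rw [h]
    push_cast
    rw [sub_self]
  rw [wt_neg _ (by omega), Submodule.mem_bot] at h2
  exact h2

lemma L1_pow_X0 (i : ℕ) (a : PP) : (A.Y om 2 ^ i) (X 0 * a) = X 0 * (A.Y om 2 ^ i) a := by
  induction i with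
  | zero => rfl
  | succ i ih =>
    rw [pow_succ', Module.End.mul_apply, ih, L1_X0 A hA, Module.End.mul_apply]

lemma L1_pow_TT (i : ℕ) (k : ℚ) (a : PP) (ha : NN a = k • a) :
    (A.Y om 2 ^ (i + 1)) (TT a) = TT ((A.Y om 2 ^ (i + 1)) a) +
      (((i : ℚ) + 1) * (2 * k - i)) • (A.Y om 2 ^ i) a := by
  induction i with
  | zero =>
    rw [zero_add, pow_one, pow_zero, L1_TT A hA, ha]
    push_cast
    rw [smul_smul]
    congr 2
    ring
  | succ i ih =>
    rw [pow_succ', Module.End.mul_apply, ih, map_add, L1_TT A hA,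
      NN_L1_pow A hA (i + 1) k a ha, map_smul]
    have e1 : A.Y om 2 ((A.Y om 2 ^ (i + 1)) a) = (A.Y om 2 ^ (i + 1 + 1)) a := by
      rw [pow_succ' _ (i + 1), Module.End.mul_apply]
    have e2 : A.Y om 2 ((A.Y om 2 ^ i) a) = (A.Y om 2 ^ (i + 1)) a := by
      rw [pow_succ' _ i, Module.End.mul_apply]
    rw [e1, e2, Module.End.mul_apply, e1]
    push_cast
    module

/-- two finite ranges -/
theorem Ymul0_fin2 (b : PP) (m : ℤ) (v : PP) :
    ∃ M₀ : ℕ, ∀ M M' : ℕ, M₀ ≤ M → M₀ ≤ M' → A.Y (X 0 * b) m v =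
      ∑ i ∈ Finset.range M, hOp (-1 - i) (A.Y b (m + i) v) +
      ∑ i ∈ Finset.range M', A.Y b (m - 1 - i) (hOp i v) := by
  obtain ⟨N1, hN1⟩ := A.trunc b v
  obtain ⟨N2, hN2⟩ := fl v
  obtain ⟨M1, hM1⟩ := Ymul0_fin A hA b m v
  refine ⟨max M1 (max (N1 - m) N2).toNat, fun M M' hM hM' => ?_⟩
  have h1 : ∀ M M' : ℕ, (max (N1 - m) N2).toNat ≤ M → M ≤ M' →
      ∑ i ∈ Finset.range M, hOp (-1 - i) (A.Y b (m + i) v) =
      ∑ i ∈ Finset.range M', hOp (-1 - i) (A.Y b (m + i) v) := by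
    intro M M' hM hMM
    refine Finset.sum_subset (Finset.range_mono hMM) fun i _ hi => ?_
    rw [Finset.mem_range, not_lt] at hi
    have h1 : N1 ≤ m + (i : ℤ) := by
      have := le_max_left (N1 - m) N2
      omega
    rw [hN1 _ h1, map_zero]
  have h2 : ∀ M M' : ℕ, (max (N1 - m) N2).toNat ≤ M → M ≤ M' →
      ∑ i ∈ Finset.range M, A.Y b (m - 1 - i) (hOp i v) =
      ∑ i ∈ Finset.range M', A.Y b (m - 1 - i) (hOp i v) := by
    intro M M' hM hMM
    refine Finset.sum_subset (Finset.range_mono hMM) fun i _ hi => ?_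
    rw [Finset.mem_range, not_lt] at hi
    have h2 : N2 ≤ (i : ℤ) := by
      have := le_max_right (N1 - m) N2
      omega
    rw [hN2 _ h2, map_zero]
  have hM2 : M1 ≤ M := le_trans (le_max_left _ _) hM
  have hM3 : (max (N1 - m) N2).toNat ≤ M := le_trans (le_max_right _ _) hM
  have hM3' : (max (N1 - m) N2).toNat ≤ M' := le_trans (le_max_right _ _) hM'
  rw [hM1 (max M M') (le_trans hM2 (le_max_left _ _)), Finset.sum_add_distrib,
    h1 M (max M M') hM3 (le_max_left _ _), h2 M' (max M M') hM3' (le_max_right _ _)]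

end inv

/-- The invariance of the form for the modes of a vector of weight `k`. -/
def PI (A : VertexAlgebra PP) (k : ℕ) (a : PP) : Prop :=
  NN a = (k : ℚ) • a ∧ ∀ K : ℕ, k < K → ∀ (n : ℤ) (b c : PP),
    BB (A.Y a n b) c = (-1 : ℚ) ^ k * ∑ i ∈ Finset.range K,
      (1 / (i.factorial : ℚ)) * BB b (A.Y ((A.Y om 2 ^ i) a) (2 * k - n - i - 2) c)

section inv2

variable (A : VertexAlgebra PP) (hA : Good A)

include hA

lemma L1_pow_one (i : ℕ) : (A.Y om 2 ^ i) (1 : PP) = if i = 0 then 1 else 0 := by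
  induction i with
  | zero => rfl
  | succ i ih =>
    rw [pow_succ', Module.End.mul_apply, ih, if_neg (Nat.succ_ne_zero i)]
    split_ifs
    · rw [← hA.1]
      exact A.one_right' om 2 (by norm_num)
    · exact map_zero _

lemma PI_one : PI A 0 1 := by
  constructor
  · rw [Nat.cast_zero, zero_smul]
    exact Derivation.map_one_eq_zero _
  · intro K hK n b c
    rw [Finset.sum_eq_single_of_mem 0 (Finset.mem_range.2 hK)]
    · rw [L1_pow_one A hA, if_pos rfl]
      have h1 : ∀ (n : ℤ) (v : PP), A.Y (1 : PP) n v = if n = -1 then v else 0 := by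
        intro n v
        have := A.one_left n v
        rw [hA.1] at this
        exact this
      rw [h1, h1]
      by_cases h : n = -1
      · subst h
        rw [if_pos rfl, if_pos (by norm_num)]
        norm_num
      · rw [if_neg h, if_neg (by push_cast; omega), map_zero, map_zero, LinearMap.zero_apply]
        norm_num
    · intro i _ hi
      rw [L1_pow_one A hA, if_neg hi, map_zero, Pi.zero_apply, LinearMap.zero_apply, map_zero,
        mul_zero]

lemma PI_add {k : ℕ} {a a' : PP} (h : PI A k a) (h' : PI A k a') : PI A k (a + a') := by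
  obtain ⟨h1, h2⟩ := h
  obtain ⟨h3, h4⟩ := h'
  constructor
  · rw [map_add, h1, h3, smul_add]
  · intro K hK n b c
    rw [map_add, Pi.add_apply, LinearMap.add_apply, map_add, LinearMap.add_apply, h2 K hK, h4 K hK,
      ← mul_add, ← Finset.sum_add_distrib]
    congr 1
    refine Finset.sum_congr rfl fun i _ => ?_
    simp only [map_add, Pi.add_apply, LinearMap.add_apply, mul_add]

lemma PI_smul {k : ℕ} {a : PP} (r : ℚ) (h : PI A k a) : PI A k (r • a) := by
  obtain ⟨h1, h2⟩ := h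
  constructor
  · rw [Derivation.map_smul, h1, smul_comm]
  · intro K hK n b c
    rw [map_smul, Pi.smul_apply, LinearMap.smul_apply, map_smul, LinearMap.smul_apply, h2 K hK,
      smul_eq_mul, mul_left_comm, Finset.mul_sum]
    congr 1
    refine Finset.sum_congr rfl fun i _ => ?_
    rw [map_smul, map_smul, Pi.smul_apply, LinearMap.smul_apply, map_smul, smul_eq_mul]
    ring

lemma PI_TT {k : ℕ} {a : PP} (h : PI A k a) : PI A (k + 1) (TT a) := by
  obtain ⟨h1, h2⟩ := h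
  have hw : NN (TT a) = ((k + 1 : ℕ) : ℚ) • TT a := by
    rw [NN_TT A hA, h1, map_smul]
    push_cast
    module
  refine ⟨hw, ?_⟩
  intro K hK n b c
  obtain ⟨K', rfl⟩ : ∃ K', K = K' + 1 := ⟨K - 1, by omega⟩
  have hK' : k < K' := by omega
  rw [hA.2.2, LinearMap.smul_apply, map_smul, LinearMap.smul_apply, h2 K' hK', smul_eq_mul]
  -- the values which occur
  let F : ℕ → ℚ := fun i => BB b (A.Y ((A.Y om 2 ^ i) a) (2 * k - n - i - 1) c)
  have hF : F K' = 0 := by
    show BB b (A.Y ((A.Y om 2 ^ K') a) (2 * k - n - K' - 1) c) = 0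
    rw [L1_pow_zero A hA K' k hK' a h1, map_zero, Pi.zero_apply, LinearMap.zero_apply, map_zero]
  have hL : ∀ i ∈ Finset.range K', (1 / (i.factorial : ℚ)) *
      BB b (A.Y ((A.Y om 2 ^ i) a) (2 * k - (n - 1) - i - 2) c) =
      (1 / (i.factorial : ℚ)) * F i := by
    intro i _
    have e : (2 * (k : ℤ) - (n - 1) - i - 2) = 2 * k - n - i - 1 := by ring
    rw [e]
  have hT : ∀ (x : PP) (i : ℕ), BB b (A.Y (TT x) (2 * ((k + 1 : ℕ) : ℤ) - n - i - 2) c) =
      -(2 * (k : ℚ) - n - i) * BB b (A.Y x (2 * k - n - i - 1) c) := by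
    intro x i
    have e : (2 * ((k + 1 : ℕ) : ℤ) - n - i - 2) = 2 * (k : ℤ) - n - i := by push_cast; ring
    rw [e, hA.2.2, LinearMap.smul_apply, map_smul, smul_eq_mul]
    push_cast
    ring
  have hR : ∀ i ∈ Finset.range K', (1 / ((i + 1).factorial : ℚ)) *
      BB b (A.Y ((A.Y om 2 ^ (i + 1)) (TT a))
        (2 * ((k + 1 : ℕ) : ℤ) - n - ((i + 1 : ℕ) : ℤ) - 2) c) =
      -(2 * (k : ℚ) - n - ((i + 1 : ℕ) : ℚ)) * ((1 / ((i + 1).factorial : ℚ)) * F (i + 1)) +
      (1 / (i.factorial : ℚ)) * (2 * k - i) * F i := by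
    intro i _
    rw [L1_pow_TT A hA i k a h1, map_add, Pi.add_apply, LinearMap.add_apply, map_add, hT,
      map_smul, Pi.smul_apply, LinearMap.smul_apply, map_smul, smul_eq_mul, mul_add]
    have e2 : (2 * ((k + 1 : ℕ) : ℤ) - n - ((i + 1 : ℕ) : ℤ) - 2) = 2 * (k : ℤ) - n - i - 1 := by
      push_cast; ring
    rw [e2]
    have e3 : (((i + 1).factorial : ℕ) : ℚ) = ((i : ℚ) + 1) * (i.factorial : ℚ) := by
      rw [Nat.factorial_succ]; push_cast; ring
    have e4 : ((i : ℚ) + 1) ≠ 0 := by positivity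
    have e5 : (i.factorial : ℚ) ≠ 0 := by exact_mod_cast Nat.factorial_ne_zero i
    congr 1
    · show _ = -(2 * (k : ℚ) - n - ((i + 1 : ℕ) : ℚ)) * ((1 / ((i + 1).factorial : ℚ)) *
        BB b (A.Y ((A.Y om 2 ^ (i + 1)) a) (2 * k - n - ((i + 1 : ℕ) : ℤ) - 1) c))
      ring
    · show _ = (1 / (i.factorial : ℚ)) * (2 * k - i) *
        BB b (A.Y ((A.Y om 2 ^ i) a) (2 * k - n - i - 1) c)
      rw [e3]
      field_simp
  rw [Finset.sum_congr rfl hL, Finset.sum_range_succ', Finset.sum_congr rfl hR,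
    Finset.sum_add_distrib, pow_zero, Module.End.one_apply, hT]
  have hF0 : BB b (A.Y a (2 * k - n - ((0 : ℕ) : ℤ) - 1) c) = F 0 := rfl
  rw [hF0]
  -- reassemble the first sum
  have hS : ∑ i ∈ Finset.range K', -(2 * (k : ℚ) - n - ((i + 1 : ℕ) : ℚ)) *
      ((1 / ((i + 1).factorial : ℚ)) * F (i + 1)) + -(2 * (k : ℚ) - n - ((0 : ℕ) : ℚ)) *
      ((1 / ((0 : ℕ).factorial : ℚ)) * F 0) =
      ∑ i ∈ Finset.range K', -(2 * (k : ℚ) - n - (i : ℚ)) * ((1 / (i.factorial : ℚ)) * F i) := by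
    have h1 := Finset.sum_range_succ' (fun i : ℕ => -(2 * (k : ℚ) - n - (i : ℚ)) *
      ((1 / (i.factorial : ℚ)) * F i)) K'
    have h2 := Finset.sum_range_succ (fun i : ℕ => -(2 * (k : ℚ) - n - (i : ℚ)) *
      ((1 / (i.factorial : ℚ)) * F i)) K'
    rw [← h1, h2, hF, mul_zero, mul_zero, add_zero]
  have hS2 : ∑ i ∈ Finset.range K', -(2 * (k : ℚ) - n - (i : ℚ)) *
      ((1 / (i.factorial : ℚ)) * F i) +
      ∑ i ∈ Finset.range K', (1 / (i.factorial : ℚ)) * (2 * k - i) * F i =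
      n * ∑ i ∈ Finset.range K', (1 / (i.factorial : ℚ)) * F i := by
    rw [← Finset.sum_add_distrib, Finset.mul_sum]
    refine Finset.sum_congr rfl fun i _ => ?_
    ring
  rw [pow_succ]
  have key := hS2
  rw [← hS] at key
  linear_combination ((-1 : ℚ) ^ k) * key

lemma PI_X0 {k : ℕ} {a : PP} (h : PI A k a) : PI A (k + 1) (X 0 * a) := by
  obtain ⟨h1, h2⟩ := h
  constructor
  · rw [Derivation.leibniz, h1, NN_X, smul_eq_mul, smul_eq_mul, MvPolynomial.smul_eq_C_mul,
      MvPolynomial.smul_eq_C_mul]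
    push_cast
    rw [C_add, C_add]
    simp only [C_0, C_1]
    ring
  · intro K hK n b c
    have hK2 : k < K := by omega
    obtain ⟨M1, hM1⟩ := Ymul0_fin2 A hA a n b
    choose M2 hM2 using fun i : ℕ => Ymul0_fin2 A hA ((A.Y om 2 ^ i) a)
      (2 * ((k + 1 : ℕ) : ℤ) - n - i - 2) c
    obtain ⟨M, hMa, hMb⟩ : ∃ M, M1 ≤ M ∧ ∀ i ∈ Finset.range K, M2 i ≤ M :=
      ⟨max M1 ((Finset.range K).sup M2), le_max_left _ _, fun i hi =>
        le_trans (Finset.le_sup hi) (le_max_right _ _)⟩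
    have hR : ∀ i ∈ Finset.range K, (1 / (i.factorial : ℚ)) *
        BB b (A.Y ((A.Y om 2 ^ i) (X 0 * a)) (2 * ((k + 1 : ℕ) : ℤ) - n - i - 2) c) =
        (1 / (i.factorial : ℚ)) * (∑ j ∈ Finset.range M,
          BB b (hOp (-1 - j) (A.Y ((A.Y om 2 ^ i) a)
            (2 * ((k + 1 : ℕ) : ℤ) - n - i - 2 + j) c)) +
          ∑ j ∈ Finset.range (M + 1), BB b (A.Y ((A.Y om 2 ^ i) a)
            (2 * ((k + 1 : ℕ) : ℤ) - n - i - 2 - 1 - ((j + 1 : ℕ) : ℤ))
              (hOp ((j + 1 : ℕ) : ℤ) c))) := by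
      intro i hi
      rw [L1_pow_X0 A hA, hM2 i M (M + 1 + 1) (hMb i hi) (le_trans (hMb i hi) (by omega)),
        Finset.sum_range_succ' _ (M + 1)]
      have e : hOp ((0 : ℕ) : ℤ) c = 0 := hOp_zero c
      rw [e, map_zero, add_zero, map_add, map_sum, map_sum]
    rw [Finset.sum_congr rfl hR, hM1 (M + 1) (M + 1) (by omega) (by omega), map_add,
      LinearMap.add_apply, map_sum, map_sum, LinearMap.sum_apply, LinearMap.sum_apply]
    have hL1 : ∀ j ∈ Finset.range (M + 1), BB (hOp (-1 - j) (A.Y a (n + j) b)) c =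
        (-1 : ℚ) ^ (k + 1) * ∑ i ∈ Finset.range K, (1 / (i.factorial : ℚ)) *
          BB b (A.Y ((A.Y om 2 ^ i) a)
            (2 * ((k + 1 : ℕ) : ℤ) - n - i - 2 - 1 - ((j + 1 : ℕ) : ℤ))
              (hOp ((j + 1 : ℕ) : ℤ) c)) := by
      intro j _
      have e1 : -(-1 - (j : ℤ)) = ((j + 1 : ℕ) : ℤ) := by push_cast; ring
      rw [BB_h, e1, h2 K hK2, pow_succ, mul_neg_one, neg_mul]
      congr 2
      refine Finset.sum_congr rfl fun i _ => ?_
      have e2 : 2 * (k : ℤ) - (n + j) - i - 2 =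
        2 * ((k + 1 : ℕ) : ℤ) - n - i - 2 - 1 - ((j + 1 : ℕ) : ℤ) := by push_cast; ring
      rw [e2]
    have hL2 : ∀ j ∈ Finset.range (M + 1), BB (A.Y a (n - 1 - j) (hOp j b)) c =
        (-1 : ℚ) ^ (k + 1) * ∑ i ∈ Finset.range K, (1 / (i.factorial : ℚ)) *
          BB b (hOp (-j) (A.Y ((A.Y om 2 ^ i) a)
            (2 * k - (n - 1 - j) - i - 2) c)) := by
      intro j _
      rw [h2 K hK2, pow_succ, mul_neg_one, neg_mul, ← mul_neg, ← Finset.sum_neg_distrib]
      congr 1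
      refine Finset.sum_congr rfl fun i _ => ?_
      rw [BB_h, mul_neg]
    rw [Finset.sum_congr rfl hL1, Finset.sum_congr rfl hL2, ← Finset.mul_sum, ← Finset.mul_sum,
      ← mul_add]
    congr 1
    rw [Finset.sum_comm, Finset.sum_comm (s := Finset.range (M + 1)), ← Finset.sum_add_distrib]
    refine Finset.sum_congr rfl fun i _ => ?_
    rw [← Finset.mul_sum, ← Finset.mul_sum, ← mul_add, add_comm]
    congr 2
    rw [Finset.sum_range_succ']
    have e : hOp (-((0 : ℕ) : ℤ)) (A.Y ((A.Y om 2 ^ i) a)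
        (2 * k - (n - 1 - ((0 : ℕ) : ℤ)) - i - 2) c) = 0 := hOp_zero _
    rw [e, map_zero, add_zero]
    refine Finset.sum_congr rfl fun j _ => ?_
    have e1 : -((j + 1 : ℕ) : ℤ) = -1 - j := by push_cast; ring
    have e2 : 2 * (k : ℤ) - (n - 1 - ((j + 1 : ℕ) : ℤ)) - i - 2 =
      2 * ((k + 1 : ℕ) : ℤ) - n - i - 2 + j := by push_cast; ring
    rw [e1, e2]

lemma PI_X (l : ℕ) : ∀ {k : ℕ} {a : PP}, PI A k a → PI A (k + (l + 1)) (X l * a) := by
  induction l with
  | zero =>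
    intro k a h
    exact PI_X0 A hA h
  | succ l ih =>
    intro k a h
    have h1 : PI A (k + (l + 1) + 1) (TT (X l * a)) := PI_TT A hA (ih h)
    have h2 : PI A (k + 1 + (l + 1)) (X l * TT a) := ih (PI_TT A hA h)
    have e1 : k + (l + 1) + 1 = k + (l + 1 + 1) := by ring
    have e2 : k + 1 + (l + 1) = k + (l + 1 + 1) := by ring
    rw [e1] at h1
    rw [e2] at h2
    have h3 := PI_smul A hA (1 / ((l : ℚ) + 1))
      (PI_add A hA h1 (PI_smul A hA (-1) h2))
    have e3 : (1 / ((l : ℚ) + 1)) • (TT (X l * a) + (-1 : ℚ) • (X l * TT a)) = X (l + 1) * a := by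
      rw [TT_apply, Derivation.leibniz, DD_X, smul_eq_mul, smul_eq_mul, TT_apply]
      have e4 : X l * DD a + a * (C ((l : ℚ) + 1) * X (l + 1)) + (-1 : ℚ) • (X l * DD a) =
          ((l : ℚ) + 1) • (X (l + 1) * a) := by
        rw [MvPolynomial.smul_eq_C_mul, MvPolynomial.smul_eq_C_mul]
        have : (C (-1 : ℚ) : PP) = -1 := by rw [C_neg, C_1]
        rw [this]
        ring
      rw [e4, smul_smul]
      have e5 : 1 / ((l : ℚ) + 1) * ((l : ℚ) + 1) = 1 := by
        have : ((l : ℚ) + 1) ≠ 0 := by positivity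
        field_simp
      rw [e5, one_smul]
    rw [e3] at h3
    exact h3

lemma wS_add (s t : ℕ →₀ ℕ) : wS (s + t) = wS s + wS t := by
  unfold wS
  exact Finsupp.sum_add_index' (fun _ => by ring) (fun _ _ _ => by ring)

lemma PI_mono (s : ℕ →₀ ℕ) : ∀ {k : ℕ} {a : PP}, PI A k a → PI A (k + wS s) (monomial s 1 * a) := by
  induction s using Finsupp.induction_linear with
  | zero =>
    intro k a h
    have e1 : (monomial (0 : ℕ →₀ ℕ) (1 : ℚ) : PP) = 1 := rfl
    have e2 : wS 0 = 0 := Finsupp.sum_zero_index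
    rw [e1, e2, one_mul, add_zero]
    exact h
  | add s t hs ht =>
    intro k a h
    have e : (monomial (s + t) (1 : ℚ) : PP) = monomial t 1 * monomial s 1 := by
      rw [monomial_mul, mul_one, add_comm]
    rw [e, wS_add A hA, mul_assoc, ← add_assoc]
    exact ht (hs h)
  | single l n =>
    intro k a h
    have e2 : wS (Finsupp.single l n) = n * (l + 1) := by
      unfold wS
      rw [Finsupp.sum_single_index (by ring)]
    rw [e2]
    induction n with
    | zero =>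
      rw [Finsupp.single_zero]
      have e1 : (monomial (0 : ℕ →₀ ℕ) (1 : ℚ) : PP) = 1 := rfl
      rw [e1, one_mul, zero_mul, add_zero]
      exact h
    | succ n ih =>
      have h3 := PI_X A hA l (ih (by
        unfold wS
        rw [Finsupp.sum_single_index (by ring)]))
      have e3 : (X l * (monomial (Finsupp.single l n) 1 * a) : PP) =
          monomial (Finsupp.single l (n + 1)) 1 * a := by
        rw [← mul_assoc, X, monomial_mul, mul_one, ← Finsupp.single_add, add_comm 1 n]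
      rw [e3] at h3
      have e4 : k + n * (l + 1) + (l + 1) = k + (n + 1) * (l + 1) := by ring
      rw [e4] at h3
      exact h3

lemma PI_zero (k : ℕ) : PI A k 0 := by
  have h := PI_smul A hA 0 (PI_mono A hA (Finsupp.single 0 k) (PI_one A hA))
  have e2 : wS (Finsupp.single 0 k) = k := by
    unfold wS
    rw [Finsupp.sum_single_index (by ring)]
    ring
  rw [zero_smul, e2, zero_add] at h
  exact h

theorem PI_all (k : ℕ) (a : PP) (ha : NN a = (k : ℚ) • a) : PI A k a := by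
  have h1 : ∀ s, coeff s a ≠ 0 → wS s = k := by
    intro s hs
    have h := repr_eq (basisMonomials ℕ ℚ) NN.toLinearMap (fun s => (wS s : ℤ)) NN_bas a s
    have h3 : NN.toLinearMap a = (k : ℚ) • a := ha
    rw [h3, map_smul, Finsupp.smul_apply, smul_eq_mul] at h
    have h4 : (basisMonomials ℕ ℚ).repr a s ≠ 0 := hs
    have h5 := mul_right_cancel₀ h4 h
    exact_mod_cast h5.symm
  rw [a.as_sum]
  have h2 : ∀ T : Finset (ℕ →₀ ℕ), (∀ s ∈ T, coeff s a ≠ 0) →
      PI A k (∑ s ∈ T, monomial s (coeff s a)) := by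
    intro T
    induction T using Finset.induction_on with
    | empty =>
      intro _
      rw [Finset.sum_empty]
      exact PI_zero A hA k
    | insert s T hs ih =>
      intro hT
      rw [Finset.sum_insert hs]
      refine PI_add A hA ?_ (ih fun t ht => hT t (Finset.mem_insert_of_mem ht))
      have h3 := PI_smul A hA (coeff s a) (PI_mono A hA s (PI_one A hA))
      rw [zero_add, h1 s (hT s (Finset.mem_insert_self _ _)), mul_one, smul_monomial,
        smul_eq_mul, mul_one] at h3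
      exact h3
  exact h2 _ fun s hs => mem_support_iff.1 hs

/-- The invariance of the form in the sense of Frenkel, Huang and Lepowsky. -/
theorem BB_inv (k : ℤ) (a : PP) (ha : NN a = (k : ℚ) • a) (n : ℤ) (b c : PP) :
    BB (A.Y a n b) c = (-1 : ℚ) ^ k * ∑ᶠ i : ℕ,
      (1 / (i.factorial : ℚ)) * BB b (A.Y ((A.Y om 2 ^ i) a) (2 * k - n - i - 2) c) := by
  by_cases hk : 0 ≤ k
  · obtain ⟨k, rfl⟩ : ∃ j : ℕ, k = (j : ℤ) := ⟨k.toNat, by omega⟩
    have ha' : NN a = (k : ℚ) • a := by exact_mod_cast ha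
    rw [(PI_all A hA k a ha').2 (k + 1) (by omega) n b c, zpow_natCast,
      finsum_eq_sum_of_support_subset (s := Finset.range (k + 1))]
    intro i hi
    rw [Finset.coe_range, Set.mem_Iio]
    by_contra hcon
    apply hi
    show (1 / (i.factorial : ℚ)) * BB b (A.Y ((A.Y om 2 ^ i) a) (2 * k - n - i - 2) c) = 0
    rw [L1_pow_zero A hA i k (by omega) a ha', map_zero, Pi.zero_apply, LinearMap.zero_apply,
      map_zero, mul_zero]
  · have h0 : a ∈ LinearMap.ker
        (NN.toLinearMap - (k : ℚ) • (LinearMap.id : PP →ₗ[ℚ] PP)) := by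
      rw [LinearMap.mem_ker, LinearMap.sub_apply]
      show NN a - (k : ℚ) • a = 0
      rw [ha, sub_self]
    rw [wt_neg _ (by omega), Submodule.mem_bot] at h0
    subst h0
    have h1 : ∀ i : ℕ, (1 / (i.factorial : ℚ)) *
        BB b (A.Y ((A.Y om 2 ^ i) (0 : PP)) (2 * k - n - i - 2) c) = 0 := by
      intro i
      rw [map_zero, map_zero, Pi.zero_apply, LinearMap.zero_apply, map_zero, mul_zero]
    rw [finsum_congr h1, finsum_zero, mul_zero, map_zero, Pi.zero_apply, LinearMap.zero_apply,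
      map_zero, LinearMap.zero_apply]

end inv2

end Pool.Agent.V1112.HB
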