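import Pool.Agent.V1112.HB.Form
import Pool.Agent.V1112.HB.Arith

/-! An integral form in the rank one Heisenberg vertex operator algebra. -/

set_option autoImplicit false

namespace Pool.Agent.V1112.HB

open MvPolynomial Pool.Agent.V1112.HV

/-- the denominator of a monomial -/
noncomputable def Ms (s : ℕ →₀ ℕ) : ℕ := s.prod fun l n => N (l + 1) ^ n

lemma Ms_add (s t : ℕ →₀ ℕ) : Ms (s + t) = Ms s * Ms t := by
  unfold Ms
  exact Finsupp.prod_add_index' (fun _ => pow_zero _) (fun _ _ _ => pow_add _ _ _)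

lemma Ms_single (l n : ℕ) : Ms (Finsupp.single l n) = N (l + 1) ^ n := by
  unfold Ms
  exact Finsupp.prod_single_index (pow_zero _)

lemma Ms_pos (s : ℕ →₀ ℕ) : 0 < Ms s := Finset.prod_pos fun l _ => pow_pos (N_pos _) _

lemma Ms_ne (s : ℕ →₀ ℕ) : (1 / (Ms s : ℚ)) ≠ 0 := by
  have : (0 : ℚ) < Ms s := by exact_mod_cast Ms_pos s
  positivity

lemma Nq (n : ℕ) : (0 : ℚ) < N n := by exact_mod_cast N_pos n

/-- The basis of the integral form. -/
noncomputable def bet : Module.Basis (ℕ →₀ ℕ) ℚ PP :=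
  (basisMonomials ℕ ℚ).unitsSMul (fun s => Units.mk0 (1 / (Ms s : ℚ)) (Ms_ne s))

lemma bet_apply (s : ℕ →₀ ℕ) : bet s = (1 / (Ms s : ℚ)) • monomial s 1 := by
  unfold bet
  rw [Module.Basis.unitsSMul_apply, coe_basisMonomials]
  rfl

/-- The integral form. -/
noncomputable def JJ : AddSubgroup PP := AddSubgroup.closure (Set.range bet)

lemma bet_mem (s : ℕ →₀ ℕ) : bet s ∈ JJ := AddSubgroup.subset_closure ⟨s, rfl⟩

lemma JJ_int {v : PP} (hv : v ∈ JJ) (r : ℚ) (hr : ∃ z : ℤ, r = z) : r • v ∈ JJ := by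
  obtain ⟨z, rfl⟩ := hr
  have := JJ.zsmul_mem hv z
  rwa [← Int.cast_smul_eq_zsmul ℚ] at this

lemma bet_add_single (s : ℕ →₀ ℕ) (l : ℕ) :
    bet (s + Finsupp.single l 1) = (1 / (N (l + 1) : ℚ)) • (X l * bet s) := by
  rw [bet_apply, bet_apply, Ms_add, Ms_single, pow_one, mul_smul_comm, smul_smul]
  have e : (X l * monomial s 1 : PP) = monomial (s + Finsupp.single l 1) 1 := by
    rw [X, monomial_mul, mul_one, add_comm]
  rw [e]
  congr 1
  push_cast
  have h1 := Nq (l + 1)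
  have h2 : (0 : ℚ) < Ms s := by exact_mod_cast Ms_pos s
  field_simp

lemma JJ_X (l : ℕ) {v : PP} (hv : v ∈ JJ) : (1 / (N (l + 1) : ℚ)) • (X l * v) ∈ JJ := by
  unfold JJ at hv
  induction hv using AddSubgroup.closure_induction with
  | mem x hx =>
    obtain ⟨s, rfl⟩ := hx
    rw [← bet_add_single]
    exact bet_mem _
  | zero =>
    rw [mul_zero, smul_zero]
    exact JJ.zero_mem
  | add x y _ _ hx hy =>
    rw [mul_add, smul_add]
    exact JJ.add_mem hx hy
  | neg x _ hx =>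
    rw [mul_neg, smul_neg]
    exact JJ.neg_mem hx

lemma JJ_h_bet (j : ℕ) (c : ℚ) (hc : ∃ z : ℤ, c * ((j : ℚ) + 1) / (N (j + 1) : ℚ) = z)
    (s : ℕ →₀ ℕ) : c • hOp ((j : ℤ) + 1) (bet s) ∈ JJ := by
  by_cases hs : s j = 0
  · rw [hOp_pos, bet_apply, Derivation.map_smul, pderiv_monomial, hs]
    simp [JJ.zero_mem]
  · obtain ⟨t, ht⟩ : ∃ t : ℕ →₀ ℕ, s = t + Finsupp.single j 1 := by
      refine ⟨s - Finsupp.single j 1, ?_⟩
      ext i
      by_cases hi : i = j
      · subst hi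
        simp
        omega
      · simp [Finsupp.single_eq_of_ne hi]
    subst ht
    obtain ⟨z, hz⟩ := hc
    have e : c • hOp ((j : ℤ) + 1) (bet (t + Finsupp.single j 1)) =
        (c * ((j : ℚ) + 1) / (N (j + 1) : ℚ) * ((t j : ℚ) + 1)) • bet t := by
      rw [hOp_pos, bet_apply, Derivation.map_smul, pderiv_monomial, bet_apply, Ms_add, Ms_single,
        pow_one, Finsupp.add_apply, Finsupp.single_eq_same, one_mul, add_tsub_cancel_right]
      have e1 : (monomial t (((t j + 1 : ℕ)) : ℚ) : PP) = ((t j : ℚ) + 1) • monomial t 1 := by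
        rw [smul_monomial, smul_eq_mul, mul_one]
        push_cast
        rfl
      rw [e1, smul_smul, smul_smul, smul_smul, smul_smul]
      congr 1
      push_cast
      have h1 := Nq (j + 1)
      have h2 : (0 : ℚ) < Ms t := by exact_mod_cast Ms_pos t
      field_simp
    rw [e, hz]
    refine JJ_int (bet_mem t) _ ⟨z * ((t j : ℤ) + 1), ?_⟩
    push_cast
    ring

lemma JJ_h (j : ℕ) (c : ℚ) (hc : ∃ z : ℤ, c * ((j : ℚ) + 1) / (N (j + 1) : ℚ) = z)
    {v : PP} (hv : v ∈ JJ) : c • hOp ((j : ℤ) + 1) v ∈ JJ := by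
  unfold JJ at hv
  induction hv using AddSubgroup.closure_induction with
  | mem x hx =>
    obtain ⟨s, rfl⟩ := hx
    exact JJ_h_bet j c hc s
  | zero =>
    rw [map_zero, smul_zero]
    exact JJ.zero_mem
  | add x y _ _ hx hy =>
    rw [map_add, smul_add]
    exact JJ.add_mem hx hy
  | neg x _ hx =>
    rw [map_neg, smul_neg]
    exact JJ.neg_mem hx

/-- the coefficients of the creation operators -/
lemma coef_A (l i : ℕ) : ∃ z : ℤ,
    (1 / (N (l + 1) : ℚ)) * (Nat.choose (l + i) i : ℚ) = z * (1 / (N (l + i + 1) : ℚ)) := by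
  obtain ⟨z, hz⟩ := N_A l (l + i)
  refine ⟨z, ?_⟩
  have h1 := Nq (l + 1)
  have h2 := Nq (l + i + 1)
  have h3 : (Nat.choose (l + i) i : ℕ) = Nat.choose (l + i) l := by
    rw [Nat.choose_symm_add]
  have hz' : (Nat.choose (l + i) i : ℚ) * (N (l + i + 1) : ℚ) = (N (l + 1) : ℚ) * (z : ℚ) := by
    rw [h3]
    exact_mod_cast hz
  push_cast
  field_simp
  linear_combination hz'

/-- the coefficients of the annihilation operators -/
lemma coef_B (l j : ℕ) : ∃ z : ℤ,
    (1 / (N (l + 1) : ℚ)) * (Nat.choose (l + (j + 1)) (j + 1) : ℚ) * ((j : ℚ) + 1) /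
      (N (j + 1) : ℚ) = z := by
  obtain ⟨z, hz⟩ := N_B l j
  refine ⟨z, ?_⟩
  have h1 := Nq (l + 1)
  have h2 := Nq (j + 1)
  have h3 : (Nat.choose (l + (j + 1)) (j + 1) : ℕ) = Nat.choose (j + l + 1) (j + 1) := by
    congr 1
    ring
  have hz' : ((j : ℚ) + 1) * (Nat.choose (l + (j + 1)) (j + 1) : ℚ) =
      (N (l + 1) : ℚ) * (N (j + 1) : ℚ) * (z : ℚ) := by
    rw [h3]
    exact_mod_cast hz
  push_cast
  field_simp
  linear_combination hz'

section closure

variable (A : VertexAlgebra PP) (hA : Good A)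

/-- all modes of `b` preserve `JJ` -/
def TJ (A : VertexAlgebra PP) (b : PP) : Prop := ∀ (m : ℤ) (v : PP), v ∈ JJ → A.Y b m v ∈ JJ

include hA

lemma TJ_one : TJ A 1 := by
  intro m v hv
  have h1 := A.one_left m v
  rw [hA.1] at h1
  rw [h1]
  split_ifs
  · exact hv
  · exact JJ.zero_mem

lemma TJ_X (l : ℕ) (b : PP) (hb : TJ A b) : TJ A ((1 / (N (l + 1) : ℚ)) • (X l * b)) := by
  intro m v hv
  rw [map_smul, Pi.smul_apply, LinearMap.smul_apply, Ymul A hA l b m v, smul_finsum]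
  refine finsum_induction (p := fun x => x ∈ JJ) JJ.zero_mem (fun x y hx hy => JJ.add_mem hx hy) ?_
  intro i
  rw [smul_smul, smul_add]
  refine JJ.add_mem ?_ ?_
  · obtain ⟨z, hz⟩ := coef_A l i
    have e : -(l : ℤ) - 1 - i = -((l + i : ℕ) : ℤ) - 1 := by push_cast; ring
    rw [hz, e, hOp_neg, mul_smul]
    exact JJ_int (JJ_X (l + i) (hb _ _ hv)) _ ⟨z, rfl⟩
  · rw [smul_comm, ← map_smul]
    refine JJ_int ?_ _ ⟨(-1) ^ l, by push_cast; rfl⟩
    apply hb
    rcases i with _ | j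
    · have e : hOp ((0 : ℕ) : ℤ) v = 0 := hOp_zero v
      rw [e, smul_zero]
      exact JJ.zero_mem
    · have e : ((j + 1 : ℕ) : ℤ) = (j : ℤ) + 1 := by push_cast; ring
      rw [e]
      exact JJ_h j _ (coef_B l j) hv

lemma TJ_mono (s : ℕ →₀ ℕ) : ∀ b : PP, TJ A b → TJ A ((1 / (Ms s : ℚ)) • (monomial s 1 * b)) := by
  induction s using Finsupp.induction_linear with
  | zero =>
    intro b h
    have e1 : (monomial (0 : ℕ →₀ ℕ) (1 : ℚ) : PP) = 1 := rfl
    have e2 : Ms 0 = 1 := Finsupp.prod_zero_index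
    rw [e1, e2, one_mul, Nat.cast_one, div_one, one_smul]
    exact h
  | add s t hs ht =>
    intro b h
    have e : (1 / (Ms (s + t) : ℚ)) • (monomial (s + t) (1 : ℚ) * b : PP) =
        (1 / (Ms t : ℚ)) • (monomial t 1 * ((1 / (Ms s : ℚ)) • (monomial s 1 * b))) := by
      rw [mul_smul_comm, smul_smul, ← mul_assoc, monomial_mul, mul_one, add_comm t s, Ms_add]
      congr 1
      push_cast
      have h1 : (0 : ℚ) < Ms s := by exact_mod_cast Ms_pos s
      have h2 : (0 : ℚ) < Ms t := by exact_mod_cast Ms_pos t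
      field_simp
    rw [e]
    exact ht _ (hs _ h)
  | single l n =>
    intro b h
    induction n with
    | zero =>
      rw [Finsupp.single_zero]
      have e1 : (monomial (0 : ℕ →₀ ℕ) (1 : ℚ) : PP) = 1 := rfl
      have e2 : Ms 0 = 1 := Finsupp.prod_zero_index
      rw [e1, e2, one_mul, Nat.cast_one, div_one, one_smul]
      exact h
    | succ n ih =>
      have h3 := TJ_X A hA l _ ih
      have e3 : (1 / (N (l + 1) : ℚ)) • (X l * ((1 / (Ms (Finsupp.single l n) : ℚ)) •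
          (monomial (Finsupp.single l n) 1 * b)) : PP) =
          (1 / (Ms (Finsupp.single l (n + 1)) : ℚ)) •
            (monomial (Finsupp.single l (n + 1)) 1 * b) := by
        rw [mul_smul_comm, smul_smul, ← mul_assoc, X, monomial_mul, mul_one, ← Finsupp.single_add,
          add_comm 1 n, Ms_single, Ms_single, pow_succ]
        congr 1
        push_cast
        have h1 := Nq (l + 1)
        field_simp
      rw [e3] at h3
      exact h3

theorem JJ_closed (a : PP) (ha : a ∈ JJ) : TJ A a := by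
  unfold JJ at ha
  induction ha using AddSubgroup.closure_induction with
  | mem x hx =>
    obtain ⟨s, rfl⟩ := hx
    rw [bet_apply]
    have h := TJ_mono A hA s 1 (TJ_one A hA)
    rwa [mul_one] at h
  | zero =>
    intro m v hv
    rw [map_zero, Pi.zero_apply, LinearMap.zero_apply]
    exact JJ.zero_mem
  | add x y _ _ hx hy =>
    intro m v hv
    rw [map_add, Pi.add_apply, LinearMap.add_apply]
    exact JJ.add_mem (hx m v hv) (hy m v hv)
  | neg x _ hx =>
    intro m v hv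
    rw [map_neg, Pi.neg_apply, LinearMap.neg_apply]
    exact JJ.neg_mem (hx m v hv)

end closure

lemma one_mem : (1 : PP) ∈ JJ := by
  have h := bet_mem 0
  rw [bet_apply] at h
  have e2 : Ms 0 = 1 := Finsupp.prod_zero_index
  rw [e2, Nat.cast_one, div_one, one_smul] at h
  exact h

lemma two_om_mem : (2 : ℚ) • om ∈ JJ := by
  have h1 := JJ_X 0 (JJ_X 0 one_mem)
  rw [zero_add, N_one, Nat.cast_one, div_one, one_smul, one_smul, mul_one] at h1
  have e : (2 : ℚ) • om = X 0 * X 0 := by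
    unfold om
    rw [MvPolynomial.smul_eq_C_mul, ← mul_assoc, ← C_mul]
    norm_num
  rw [e]
  exact h1

/-- the norms of the generators -/
lemma BB_gen (l : ℕ) : BB ((1 / (N (l + 1) : ℚ)) • (X l * 1 : PP))
    ((1 / (N (l + 1) : ℚ)) • (X l * 1 : PP)) =
    -(((l : ℚ) + 1) / ((N (l + 1) : ℚ) * N (l + 1))) := by
  have h1 : BB (X l * 1 : PP) (X l * 1) = -((l : ℚ) + 1) := by
    rw [← hOp_neg, BB_X, hOp_neg, hOp_pos, pderiv_mul, pderiv_X_self]
    have e : (pderiv l (1 : PP)) = 0 := Derivation.map_one_eq_zero _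
    rw [e, mul_zero, add_zero, one_mul, map_smul, BB_one, smul_eq_mul, mul_one]
  rw [map_smul, map_smul, LinearMap.smul_apply, h1, smul_eq_mul, smul_eq_mul]
  have h2 := Nq (l + 1)
  field_simp

theorem unb (m : ℕ) (hm : 0 < m) : ∃ a ∈ JJ, ∃ b ∈ JJ, ¬ ∃ z : ℤ, (m : ℚ) * BB a b = z := by
  obtain ⟨l, hl⟩ := N_unb m hm
  refine ⟨_, JJ_X l one_mem, _, JJ_X l one_mem, ?_⟩
  rintro ⟨z, hz⟩
  rw [BB_gen] at hz
  apply hl
  have h2 := Nq (l + 1)
  have h3 : ((m * (l + 1) : ℕ) : ℤ) = ((N (l + 1) * N (l + 1) : ℕ) : ℤ) * (-z) := by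
    have h4 : (((m * (l + 1) : ℕ) : ℤ) : ℚ) =
        ((((N (l + 1) * N (l + 1) : ℕ) : ℤ) * (-z) : ℤ) : ℚ) := by
      push_cast
      rw [← hz]
      field_simp
    exact_mod_cast h4
  exact Int.natCast_dvd_natCast.1 ⟨-z, h3⟩

end Pool.Agent.V1112.HB
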