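import Pool.Agent.V1112.HV.Stm
import Pool.Agent.V1112.HV.Fin
import Pool.Agent.V1112.HV.Prd
import Pool.Agent.V1112.HV.Int
import Pool.Agent.V1112.HV.Sym
import Pool.Agent.V1112.HV.Dong
import Pool.Agent.V1112.HV.Cov
import Pool.Agent.V1112.HV.CRE
import Pool.Agent.V1112.HV.Recon

/-! The rank one Heisenberg vertex algebra over the rational numbers. -/

set_option autoImplicit false

namespace Pool.Agent.V1112.HB

open MvPolynomial Pool.Agent.V1112.HV

abbrev PP := MvPolynomial ℕ ℚ

/-- The Heisenberg operators on the polynomials in `X_0, X_1, ...`: `hOp (-(l+1))` is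
multiplication by `X_l`, `hOp 0 = 0`, `hOp (l+1) = (l+1) d/dX_l`. -/
noncomputable def hOp : ℤ → Module.End ℚ PP
  | Int.negSucc l => LinearMap.mulLeft ℚ (X l)
  | Int.ofNat 0 => 0
  | Int.ofNat (l + 1) => ((l : ℚ) + 1) • (pderiv l).toLinearMap

theorem hOp_neg (l : ℕ) (p : PP) : hOp (-(l : ℤ) - 1) p = X l * p := by
  have h : (-(l : ℤ) - 1) = Int.negSucc l := by omega
  rw [h]
  rfl

theorem hOp_zero (p : PP) : hOp 0 p = 0 := rfl

theorem hOp_pos (l : ℕ) (p : PP) : hOp ((l : ℤ) + 1) p = ((l : ℚ) + 1) • pderiv l p := by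
  have h : ((l : ℤ) + 1) = Int.ofNat (l + 1) := by simp
  rw [h]
  rfl

lemma tri (n : ℤ) : (∃ l : ℕ, n = -(l : ℤ) - 1) ∨ n = 0 ∨ ∃ l : ℕ, n = (l : ℤ) + 1 := by
  rcases lt_trichotomy n 0 with h | h | h
  · exact Or.inl ⟨(-n - 1).toNat, by omega⟩
  · exact Or.inr (Or.inl h)
  · exact Or.inr (Or.inr ⟨(n - 1).toNat, by omega⟩)

lemma pd_comm (i j : ℕ) (p : PP) : pderiv i (pderiv j p) = pderiv j (pderiv i p) := by
  have h : ⁅(pderiv i : Derivation ℚ PP PP), (pderiv j : Derivation ℚ PP PP)⁆ = 0 := by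
    apply MvPolynomial.derivation_ext
    intro k
    rw [Derivation.commutator_apply, pderiv_X, pderiv_X]
    simp only [Derivation.coe_zero, Pi.zero_apply]
    have e1 : ∀ a b c : ℕ, pderiv a ((Pi.single b (1 : PP) : ℕ → PP) c) = 0 := by
      intro a b c
      by_cases hbc : c = b
      · subst hbc
        rw [Pi.single_eq_same]
        exact Derivation.map_one_eq_zero _
      · rw [Pi.single_eq_of_ne hbc, map_zero]
    rw [e1, e1, sub_zero]
  have h2 := congrArg (fun D : Derivation ℚ PP PP => D p) h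
  simp only [Derivation.commutator_apply, Derivation.coe_zero, Pi.zero_apply] at h2
  exact sub_eq_zero.1 h2

lemma pd_mul (l l' : ℕ) (p : PP) :
    pderiv l (X l' * p) = X l' * pderiv l p + (if l' = l then p else 0) := by
  rw [Derivation.leibniz, pderiv_X, smul_eq_mul, smul_eq_mul]
  congr 1
  by_cases h : l' = l
  · subst h
    rw [Pi.single_eq_same, if_pos rfl, mul_one]
  · rw [Pi.single_eq_of_ne h, if_neg h, mul_zero]

/-- commutator of a creation and an annihilation operator -/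
lemma np (l l' : ℕ) (p : PP) :
    hOp (-(l : ℤ) - 1) (hOp ((l' : ℤ) + 1) p) -
      hOp ((l' : ℤ) + 1) (hOp (-(l : ℤ) - 1) p) =
    (if l = l' then -((l : ℚ) + 1) else 0) • p := by
  rw [hOp_pos, hOp_neg, hOp_neg, hOp_pos, pd_mul]
  by_cases h : l = l'
  · subst h
    rw [if_pos rfl, if_pos rfl, smul_add, mul_smul_comm]
    module
  · rw [if_neg h, if_neg h, add_zero, mul_smul_comm, sub_self, zero_smul]

theorem hh (m n : ℤ) (p : PP) :
    hOp m (hOp n p) - hOp n (hOp m p) = (if m + n = 0 then (m : ℚ) else 0) • p := by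
  rcases tri m with ⟨l, rfl⟩ | rfl | ⟨l, rfl⟩ <;> rcases tri n with ⟨l', rfl⟩ | rfl | ⟨l', rfl⟩
  · rw [hOp_neg, hOp_neg, hOp_neg, hOp_neg, if_neg (by omega), zero_smul,
      mul_left_comm, sub_self]
  · rw [hOp_zero, hOp_zero, map_zero, if_neg (by omega), zero_smul, sub_zero]
  · rw [np]
    congr 1
    by_cases h : l = l'
    · subst h
      rw [if_pos rfl, if_pos (by ring)]
      push_cast
      ring
    · rw [if_neg h, if_neg (by omega)]
  · rw [hOp_zero, hOp_zero, map_zero, if_neg (by omega), zero_smul, sub_zero]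
  · rw [sub_self, Int.cast_zero, ite_self, zero_smul]
  · rw [hOp_zero, hOp_zero, map_zero, if_neg (by omega), zero_smul, sub_self]
  · rw [← neg_sub, np, ← neg_smul]
    congr 1
    by_cases h : l' = l
    · subst h
      rw [if_pos rfl, if_pos (by ring)]
      push_cast
      ring
    · rw [if_neg h, if_neg (by omega), neg_zero]
  · rw [hOp_zero, hOp_zero, map_zero, if_neg (by omega), zero_smul, sub_self]
  · rw [hOp_pos, hOp_pos, hOp_pos, hOp_pos, if_neg (by omega), zero_smul, Derivation.map_smul,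
      Derivation.map_smul, pd_comm l' l, smul_comm, sub_self]

/-- The derivation `X_i ↦ (i+1) X_(i+1)`. -/
noncomputable def DD : Derivation ℚ PP PP :=
  MvPolynomial.mkDerivation ℚ (fun i : ℕ => C ((i : ℚ) + 1) * X (i + 1))

/-- The translation operator. -/
noncomputable def TT : Module.End ℚ PP := DD.toLinearMap

lemma TT_apply (p : PP) : TT p = DD p := rfl

lemma DD_X (i : ℕ) : DD (X i : PP) = C ((i : ℚ) + 1) * X (i + 1) := by
  unfold DD
  rw [MvPolynomial.mkDerivation_X]

/-- `[DD, d/dX_(j+1)] = -(j+1) d/dX_j` -/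
lemma DD_pd (j : ℕ) (p : PP) :
    DD (pderiv (j + 1) p) - pderiv (j + 1) (DD p) = (-((j : ℚ) + 1)) • pderiv j p := by
  have h : ⁅(DD : Derivation ℚ PP PP), (pderiv (j + 1) : Derivation ℚ PP PP)⁆ =
      (-((j : ℚ) + 1)) • (pderiv j : Derivation ℚ PP PP) := by
    apply MvPolynomial.derivation_ext
    intro i
    rw [Derivation.commutator_apply, DD_X, Derivation.smul_apply, pderiv_X, pderiv_X]
    have e1 : ∀ b c : ℕ, DD ((Pi.single b (1 : PP) : ℕ → PP) c) = 0 := by
      intro b c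
      by_cases hbc : c = b
      · subst hbc
        rw [Pi.single_eq_same]
        exact Derivation.map_one_eq_zero _
      · rw [Pi.single_eq_of_ne hbc, map_zero]
    rw [e1, zero_sub, pderiv_C_mul, pderiv_X]
    by_cases hij : i = j
    · subst hij
      rw [Pi.single_eq_same, Pi.single_eq_same, mul_one, smul_eq_C_mul, mul_one, map_neg]
    · rw [Pi.single_eq_of_ne hij, Pi.single_eq_of_ne (by omega), smul_zero, mul_zero, neg_zero]
  have h2 := congrArg (fun D : Derivation ℚ PP PP => D p) h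
  simpa only [Derivation.commutator_apply, Derivation.smul_apply] using h2

lemma DD_pd0 (p : PP) : DD (pderiv 0 p) - pderiv 0 (DD p) = 0 := by
  have h : ⁅(DD : Derivation ℚ PP PP), (pderiv 0 : Derivation ℚ PP PP)⁆ = 0 := by
    apply MvPolynomial.derivation_ext
    intro i
    rw [Derivation.commutator_apply, DD_X, pderiv_X]
    have e1 : ∀ b c : ℕ, DD ((Pi.single b (1 : PP) : ℕ → PP) c) = 0 := by
      intro b c
      by_cases hbc : c = b
      · subst hbc
        rw [Pi.single_eq_same]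
        exact Derivation.map_one_eq_zero _
      · rw [Pi.single_eq_of_ne hbc, map_zero]
    rw [e1, zero_sub, pderiv_C_mul, pderiv_X, Pi.single_eq_of_ne (by omega), mul_zero, neg_zero]
    rfl
  have h2 := congrArg (fun D : Derivation ℚ PP PP => D p) h
  simpa only [Derivation.commutator_apply, Derivation.coe_zero, Pi.zero_apply] using h2

theorem th (n : ℤ) (p : PP) :
    TT (hOp n p) - hOp n (TT p) = (-(n : ℚ)) • hOp (n - 1) p := by
  rcases tri n with ⟨l, rfl⟩ | rfl | ⟨l, rfl⟩
  · have e : -(l : ℤ) - 1 - 1 = -((l + 1 : ℕ) : ℤ) - 1 := by push_cast; ring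
    rw [hOp_neg, TT_apply, TT_apply, hOp_neg, e, hOp_neg]
    rw [Derivation.leibniz, DD_X, smul_eq_mul, smul_eq_mul]
    push_cast
    simp only [smul_eq_C_mul, map_add, map_sub, map_neg, map_one]
    ring
  · rw [hOp_zero, hOp_zero, map_zero, Int.cast_zero, neg_zero, zero_smul, sub_zero]
  · rw [hOp_pos, TT_apply, TT_apply, hOp_pos, Derivation.map_smul]
    rcases l with _ | j
    · have e : ((0 : ℕ) : ℤ) + 1 - 1 = 0 := by norm_num
      rw [e, hOp_zero, smul_zero]
      have h := DD_pd0 p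
      rw [← smul_sub, h, smul_zero]
    · have e : ((j + 1 : ℕ) : ℤ) + 1 - 1 = (j : ℤ) + 1 := by push_cast; ring
      rw [e, hOp_pos, ← smul_sub, DD_pd j p]
      push_cast
      module

/-- everything is generated from `1` by the operators `hOp (-(l+1))` -/
theorem gen (S : Submodule ℚ PP) (h1 : (1 : PP) ∈ S)
    (h2 : ∀ (l : ℕ) (v : PP), v ∈ S → hOp (-(l : ℤ) - 1) v ∈ S) : S = ⊤ := by
  rw [eq_top_iff]
  rintro v -
  induction v using MvPolynomial.induction_on with
  | C a =>
    have : (C a : PP) = a • 1 := by rw [MvPolynomial.smul_eq_C_mul, mul_one]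
    rw [this]
    exact S.smul_mem _ h1
  | add p q hp hq => exact S.add_mem hp hq
  | mul_X p i hp =>
    have := h2 i _ hp
    rw [hOp_neg, mul_comm] at this
    exact this

theorem fl : hOp ∈ FL PP := by
  intro p
  refine ⟨((p.vars.sup id : ℕ) : ℤ) + 2, fun n hn => ?_⟩
  obtain ⟨l, hl⟩ : ∃ l : ℕ, n = (l : ℤ) + 1 := ⟨(n - 1).toNat, by omega⟩
  subst hl
  rw [hOp_pos, pderiv_eq_zero_of_notMem_vars, smul_zero]
  intro hm
  have h1 : id l ≤ p.vars.sup id := Finset.le_sup hm
  have h2 : l ≤ p.vars.sup id := h1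
  omega

theorem bc_two (i : ℕ) : bc 2 i = (Nat.choose 2 i : ℚ) := by
  unfold bc
  have h1 : Ring.choose ((2 : ℕ) : ℤ) i = ((Nat.choose 2 i : ℕ) : ℤ) :=
    Ring.choose_natCast 2 i
  have h2 : ((2 : ℕ) : ℤ) = 2 := rfl
  rw [h2] at h1
  rw [h1]
  simp

theorem RR_two (a b : ℤ → Module.End ℚ PP) (p q : ℤ) (v : PP) :
    RR a b 2 p q v = (a (p + 2) (b q v) - b q (a (p + 2) v)) -
      (2 : ℚ) • (a (p + 1) (b (q + 1) v) - b (q + 1) (a (p + 1) v)) +
      (a p (b (q + 2) v) - b (q + 2) (a p v)) := by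
  unfold RR
  rw [finsum_eq_sum_of_support_subset (s := Finset.range 3)]
  · rw [Finset.sum_range_succ, Finset.sum_range_succ, Finset.sum_range_one]
    unfold trm
    rw [bc_two, bc_two, bc_two]
    have e1 : p + 2 - ((0 : ℕ) : ℤ) = p + 2 := by simp
    have e2 : q + ((0 : ℕ) : ℤ) = q := by simp
    have e3 : q + 2 - ((0 : ℕ) : ℤ) = q + 2 := by simp
    have e4 : p + ((0 : ℕ) : ℤ) = p := by simp
    have e5 : p + 2 - ((1 : ℕ) : ℤ) = p + 1 := by push_cast; ring
    have e6 : q + ((1 : ℕ) : ℤ) = q + 1 := by simp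
    have e7 : q + 2 - ((1 : ℕ) : ℤ) = q + 1 := by push_cast; ring
    have e8 : p + ((1 : ℕ) : ℤ) = p + 1 := by simp
    have e9 : p + 2 - ((2 : ℕ) : ℤ) = p := by push_cast; ring
    have e10 : q + ((2 : ℕ) : ℤ) = q + 2 := by simp
    have e11 : q + 2 - ((2 : ℕ) : ℤ) = q := by push_cast; ring
    have e12 : p + ((2 : ℕ) : ℤ) = p + 2 := by simp
    rw [e1, e2, e3, e4, e5, e6, e7, e8, e9, e10, e11, e12]
    have c0 : Nat.choose 2 0 = 1 := rfl
    have c1 : Nat.choose 2 1 = 2 := rfl
    have c2 : Nat.choose 2 2 = 1 := rfl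
    rw [c0, c1, c2]
    have s : ((-1 : ℚ) ^ (2 : ℤ)) = 1 := by norm_num
    rw [s]
    norm_num
    module
  · intro i hi
    rw [Function.mem_support] at hi
    by_contra hc
    apply hi
    unfold trm
    have h3 : 2 < i := by
      simp only [Finset.coe_range, Set.mem_Iio, not_lt] at hc
      omega
    rw [bc_two, Nat.choose_eq_zero_of_lt h3]
    simp

theorem loc : Loc hOp hOp := by
  refine ⟨2, fun p q v => ?_⟩
  have h2 : ((2 : ℕ) : ℤ) = 2 := rfl
  rw [h2, RR_two, hh, hh, hh]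
  have e1 : p + 2 + q = p + q + 2 := by ring
  have e2 : p + 1 + (q + 1) = p + q + 2 := by ring
  have e3 : p + (q + 2) = p + q + 2 := by ring
  rw [e1, e2, e3]
  by_cases h : p + q + 2 = 0
  · rw [if_pos h, if_pos h, if_pos h]
    push_cast
    module
  · rw [if_neg h, if_neg h, if_neg h]
    module

/-- The vertex algebras we use. -/
def Good (A : VertexAlgebra PP) : Prop :=
  A.one = 1 ∧ A.Y (X 0) = hOp ∧ ∀ (x : PP) (n : ℤ), A.Y (TT x) n = (-(n : ℚ)) • A.Y x (n - 1)

theorem va : ∃ A : VertexAlgebra PP, Good A := by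
  have hFIN : S_FIN := HVW688.fin
  have hPAS : S_PAS := HVW688.pas
  have hDong : S_DONG := HVW369.dong hFIN hPAS HVW395.sym
  have hINT : S_INT := HVW933.int hPAS
  have hPRD : S_PRD := HVW688.prd hFIN
  have hLAD : S_LAD := HVW688.lad hFIN
  have hREC : S_REC := HVW155.Recon.recon hFIN hPAS hINT hPRD HVW395.sym hLAD hDong
    (HVW85.cov hFIN) HVW179.cre HVW179.god
  have hT0 : TT (1 : PP) = 0 := Derivation.map_one_eq_zero _
  obtain ⟨A, hA1, hA2, hA3⟩ := hREC PP TT 1 {hOp} hT0
    (by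
      intro a ha
      rw [Set.mem_singleton_iff] at ha
      subst ha
      refine ⟨fl, fun n v => th n v, fun n hn => ?_⟩
      rcases tri n with ⟨l, rfl⟩ | rfl | ⟨l, rfl⟩
      · omega
      · exact hOp_zero _
      · rw [hOp_pos, Derivation.map_one_eq_zero, smul_zero])
    (by
      intro a ha b hb
      rw [Set.mem_singleton_iff] at ha hb
      subst ha
      subst hb
      exact loc)
    (by
      intro S hS h
      exact gen S hS (fun l v hv => h _ rfl _ v hv))
  refine ⟨A, hA1, ?_, hA3⟩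
  have h1 := hA2 hOp rfl
  have h2 : hOp (-1) (1 : PP) = X 0 := by
    have := hOp_neg 0 1
    simpa using this
  rwa [h2] at h1

end Pool.Agent.V1112.HB
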