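import Pool.Agent.V1112.HB.Conf

/-! The Virasoro algebra of the rank one Heisenberg vertex algebra and its weights. -/

set_option autoImplicit false

namespace Pool.Agent.V1112.HB

open MvPolynomial Pool.Agent.V1112.HV

lemma hOp_one_of_nonneg (n : ℤ) (hn : 0 ≤ n) : hOp n (1 : PP) = 0 := by
  rcases tri n with ⟨l, rfl⟩ | rfl | ⟨l, rfl⟩
  · omega
  · exact hOp_zero _
  · rw [hOp_pos, Derivation.map_one_eq_zero, smul_zero]

theorem om_X0 (A : VertexAlgebra PP) (hA : Good A) (n : ℕ) :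
    A.Y om (n : ℤ) (X 0) = hOp ((n : ℤ) - 2) 1 := by
  rw [om_eq A hA, finsum_eq_sum_of_support_subset (s := Finset.range 2)]
  · rw [Finset.sum_range_succ, Finset.sum_range_one]
    have h1 : hOp (((0 : ℕ) : ℤ)) (X 0 : PP) = 0 := by
      rw [hOp_X0 _ (by norm_num), if_neg (by norm_num)]
    have h2 : hOp (((1 : ℕ) : ℤ)) (X 0 : PP) = 1 := by
      rw [hOp_X0 _ (by norm_num), if_pos (by norm_num)]
    rw [h1, h2, map_zero, add_zero]
    have e1 : (n : ℤ) - 1 - ((1 : ℕ) : ℤ) = n - 2 := by push_cast; ring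
    rw [e1, hOp_X0 _ (by positivity), hOp_X0 _ (by positivity)]
    rcases n with _ | _ | n
    · rw [if_neg (by norm_num), if_pos (by norm_num), map_zero, zero_add]
      have e2 : (-1 - ((1 : ℕ) : ℤ)) = ((0 : ℕ) : ℤ) - 2 := by norm_num
      rw [e2, ← two_smul ℚ, smul_smul]
      norm_num
    · rw [if_pos (by norm_num), if_neg (by norm_num), map_zero, zero_add]
      have e2 : (-1 - ((0 : ℕ) : ℤ)) = ((0 + 1 : ℕ) : ℤ) - 2 := by norm_num
      rw [e2, ← two_smul ℚ, smul_smul]
      norm_num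
    · rw [if_neg (by push_cast; omega), if_neg (by push_cast; omega), map_zero, map_zero,
        zero_add, zero_add, hOp_one_of_nonneg _ (by push_cast; omega), smul_zero]
  · intro i hi
    by_contra h
    apply hi
    have h2 : 2 ≤ i := by
      simp only [Finset.coe_range, Set.mem_Iio, not_lt] at h
      exact h
    show hOp (-1 - (i : ℤ)) (hOp (n + (i : ℤ)) (X 0)) + hOp (n - 1 - (i : ℤ)) (hOp (i : ℤ) (X 0))
      = 0
    rw [hOp_X0 _ (by positivity), hOp_X0 _ (by positivity), if_neg (by omega), if_neg (by omega),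
      map_zero, map_zero, add_zero]

lemma DDX0 : TT (X 0 : PP) = X 1 := by
  rw [TT_apply, DD_X]
  simp

/-- `[omega_n, h_m] = -m h_(m+n-1)` -/
theorem om_h (A : VertexAlgebra PP) (hA : Good A) (n m : ℤ) (w : PP) :
    A.Y om n (hOp m w) - hOp m (A.Y om n w) = (-(m : ℚ)) • hOp (n + m - 1) w := by
  have h := comm_gen A om (X 0) w n m
  rw [hA.2.1] at h
  rw [← h, finsum_eq_sum_of_support_subset (s := Finset.range 2)]
  · rw [Finset.sum_range_succ, Finset.sum_range_one, bc_zero_right, bc_one_right]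
    have e0 : (0 : ℤ) + ((0 : ℕ) : ℤ) = ((0 : ℕ) : ℤ) := by simp
    have e1 : (0 : ℤ) + ((1 : ℕ) : ℤ) = ((1 : ℕ) : ℤ) := by simp
    rw [e0, e1, om_X0 A hA, om_X0 A hA]
    have e2 : ((0 : ℕ) : ℤ) - 2 = -((1 : ℕ) : ℤ) - 1 := by norm_num
    have e3 : ((1 : ℕ) : ℤ) - 2 = -((0 : ℕ) : ℤ) - 1 := by norm_num
    rw [e2, e3, hOp_neg, hOp_neg, mul_one, mul_one, ← DDX0, hA.2.2, hA.2.1]
    have e4 : n + m - ((0 : ℕ) : ℤ) - 1 = n + m - 1 := by push_cast; ring
    have e5 : n + m - ((1 : ℕ) : ℤ) = n + m - 1 := by push_cast; ring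
    rw [e4, e5, LinearMap.smul_apply, one_smul, ← add_smul]
    congr 1
    push_cast
    ring
  · intro i hi
    by_contra h
    apply hi
    have h2 : 2 ≤ i := by
      simp only [Finset.coe_range, Set.mem_Iio, not_lt] at h
      exact h
    show bc n i • A.Y (A.Y om (0 + (i : ℤ)) (X 0)) (n + m - i) w = 0
    rw [zero_add, om_X0 A hA, hOp_one_of_nonneg _ (by omega), map_zero]
    simp

lemma ext_h (D E : Module.End ℚ PP) (h1 : D 1 = E 1)
    (h2 : ∀ (l : ℕ) (v : PP), D (hOp (-(l : ℤ) - 1) v) - hOp (-(l : ℤ) - 1) (D v) =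
      E (hOp (-(l : ℤ) - 1) v) - hOp (-(l : ℤ) - 1) (E v)) : D = E := by
  have h := gen (LinearMap.ker (D - E))
    (by rw [LinearMap.mem_ker, LinearMap.sub_apply, h1, sub_self])
    (by
      intro l v hv
      rw [LinearMap.mem_ker, LinearMap.sub_apply, sub_eq_zero] at hv ⊢
      have h := h2 l v
      rw [hv] at h
      exact sub_left_injective h)
  exact sub_eq_zero.mp (LinearMap.ker_eq_top.mp h)

/-- The weight derivation. -/
noncomputable def NN : Derivation ℚ PP PP :=
  MvPolynomial.mkDerivation ℚ (fun i : ℕ => C ((i : ℚ) + 1) * X i)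

lemma NN_X (i : ℕ) : NN (X i : PP) = C ((i : ℚ) + 1) * X i := by
  unfold NN
  rw [MvPolynomial.mkDerivation_X]

theorem om_zero (A : VertexAlgebra PP) (hA : Good A) : A.Y om 0 = TT := by
  apply ext_h
  · rw [← hA.1, A.one_right' om 0 le_rfl, hA.1]
    exact (Derivation.map_one_eq_zero _).symm
  · intro l v
    rw [om_h A hA, th, zero_add]

theorem om_one (A : VertexAlgebra PP) (hA : Good A) : A.Y om 1 = NN.toLinearMap := by
  apply ext_h
  · rw [← hA.1, A.one_right' om 1 (by norm_num), hA.1]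
    exact (Derivation.map_one_eq_zero _).symm
  · intro l v
    rw [om_h A hA]
    have e : (1 : ℤ) + (-(l : ℤ) - 1) - 1 = -(l : ℤ) - 1 := by ring
    rw [e, hOp_neg, hOp_neg]
    show _ = NN (X l * v) - X l * NN v
    rw [Derivation.leibniz, NN_X, smul_eq_mul, smul_eq_mul, MvPolynomial.smul_eq_C_mul]
    push_cast
    have e2 : (-(-(l : ℚ) - 1)) = (l : ℚ) + 1 := by ring
    rw [e2]
    ring

lemma om_om (A : VertexAlgebra PP) (hA : Good A) (n : ℤ) (hn : 2 ≤ n) :
    A.Y om n om = if n = 3 then (1 / 2 : ℚ) • (1 : PP) else 0 := by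
  have e : om = (1 / 2 : ℚ) • hOp (-1) (X 0 : PP) := by
    unfold om
    have h := hOp_neg 0 (X 0)
    have e : (-((0 : ℕ) : ℤ) - 1) = -1 := by norm_num
    rw [e] at h
    rw [h, MvPolynomial.smul_eq_C_mul]
  have h1 := om_h A hA n (-1) (X 0)
  have h3 : A.Y om n (X 0) = 0 := by
    obtain ⟨k, rfl⟩ : ∃ k : ℕ, n = (k : ℤ) := ⟨n.toNat, by omega⟩
    rw [om_X0 A hA, hOp_one_of_nonneg _ (by omega)]
  rw [h3, map_zero, sub_zero, hOp_X0 (n + -1 - 1) (by omega)] at h1
  have h2 : A.Y om n om = (1 / 2 : ℚ) • A.Y om n (hOp (-1) (X 0 : PP)) := by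
    rw [← map_smul, ← e]
  rw [h2, h1]
  by_cases h : n = 3
  · rw [if_pos h, if_pos (by omega)]
    norm_num
  · rw [if_neg h, if_neg (by omega), smul_zero, smul_zero]

lemma NN_om : NN om = (2 : ℚ) • om := by
  unfold om
  rw [Derivation.leibniz, Derivation.leibniz, NN_X]
  have : NN (C (1 / 2) : PP) = 0 := by
    have := Derivation.map_algebraMap NN (1 / 2 : ℚ)
    exact this
  rw [this, smul_zero, add_zero]
  simp only [smul_eq_mul, MvPolynomial.smul_eq_C_mul]
  have e2 : (C 2 : PP) = 2 := map_ofNat C 2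
  have e3 : (C (((0 : ℕ) : ℚ) + 1) : PP) = 1 := by norm_num
  rw [e2, e3]
  ring

theorem vir (A : VertexAlgebra PP) (hA : Good A) (m n : ℤ) (v : PP) :
    A.Y om (m + 1) (A.Y om (n + 1) v) - A.Y om (n + 1) (A.Y om (m + 1) v) =
      ((m : ℚ) - n) • A.Y om (m + n + 1) v +
      (if m + n = 0 then ((m : ℚ) ^ 3 - m) / 12 * 1 else 0) • v := by
  have hone := hA.1
  have hT := hA.2.2
  have hB := comm_gen A om om v (m + 1) (n + 1)
  have hL : ∑ᶠ i : ℕ, bc (m + 1) i • A.Y (A.Y om (0 + i) om) (m + 1 + (n + 1) - i) v =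
      ∑ i ∈ Finset.range 4, bc (m + 1) i • A.Y (A.Y om (0 + i) om) (m + 1 + (n + 1) - i) v := by
    apply finsum_eq_sum_of_support_subset
    intro i hi
    rw [Finset.coe_range, Set.mem_Iio]
    by_contra hcon
    push Not at hcon
    apply hi
    have : A.Y om (0 + (i : ℤ)) om = 0 := by
      rw [om_om A hA _ (by omega), if_neg (by omega)]
    show bc (m + 1) i • A.Y (A.Y om (0 + (i : ℤ)) om) (m + 1 + (n + 1) - i) v = 0
    rw [this, map_zero, Pi.zero_apply, LinearMap.zero_apply, smul_zero]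
  rw [hL] at hB
  rw [← hB]
  have e0 : A.Y om (0 + ((0 : ℕ) : ℤ)) om = TT om := by
    have e : (0 + ((0 : ℕ) : ℤ)) = 0 := by norm_num
    rw [e, om_zero A hA]
  have e1 : A.Y om (0 + ((1 : ℕ) : ℤ)) om = (2 : ℚ) • om := by
    have e : (0 + ((1 : ℕ) : ℤ)) = 1 := by norm_num
    rw [e, om_one A hA]
    exact NN_om
  have e2 : A.Y om (0 + ((2 : ℕ) : ℤ)) om = 0 := by
    rw [om_om A hA _ (by norm_num), if_neg (by norm_num)]
  have e3 : A.Y om (0 + ((3 : ℕ) : ℤ)) om = (1 / 2 : ℚ) • A.one := by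
    rw [om_om A hA _ (by norm_num), if_pos (by norm_num), hone]
  rw [Finset.sum_range_succ, Finset.sum_range_succ, Finset.sum_range_succ,
    Finset.sum_range_succ, Finset.sum_range_zero, e0, e1, e2, e3, hT, bc_zero_right,
    bc_one_right, bc_three]
  have s0 : m + 1 + (n + 1) - ((0 : ℕ) : ℤ) - 1 = m + n + 1 := by push_cast; ring
  have s1 : m + 1 + (n + 1) - ((1 : ℕ) : ℤ) = m + n + 1 := by push_cast; ring
  have s3 : m + 1 + (n + 1) - ((3 : ℕ) : ℤ) = m + n - 1 := by push_cast; ring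
  rw [s0, s1, s3]
  simp only [map_smul, map_zero, Pi.smul_apply, Pi.zero_apply, LinearMap.smul_apply,
    LinearMap.zero_apply, smul_zero, add_zero, zero_add, one_smul, A.one_left]
  have hiff : (m + n - 1 = -1) ↔ (m + n = 0) := by omega
  simp only [hiff]
  split_ifs with h
  · simp only [smul_smul]
    push_cast
    rw [← add_smul]
    congr 1
    · congr 1
      ring
    · congr 1
      ring
  · simp only [smul_zero, zero_smul, add_zero, smul_smul]
    rw [← add_smul]
    congr 1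
    push_cast
    ring

section gen

variable {I V : Type} [AddCommGroup V] [Module ℚ V] (b : Module.Basis I ℚ V)
  (T : Module.End ℚ V) (w : I → ℤ) (hT : ∀ i, T (b i) = (w i : ℚ) • b i)

include hT

theorem repr_eq (v : V) (i : I) : b.repr (T v) i = (w i : ℚ) * b.repr v i := by
  have h : (b.coord i).comp T = (w i : ℚ) • b.coord i := by
    apply b.ext
    intro j
    rw [LinearMap.comp_apply, hT, LinearMap.smul_apply, map_smul, b.coord_apply]
    by_cases hij : j = i
    · rw [hij]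
    · rw [b.repr_self, Finsupp.single_eq_of_ne (Ne.symm hij)]
      simp
  have := LinearMap.congr_fun h v
  simpa using this

theorem ker_eq (n : ℤ) : LinearMap.ker (T - (n : ℚ) • (LinearMap.id : V →ₗ[ℚ] V)) =
    Submodule.span ℚ (b '' {i | w i = n}) := by
  apply le_antisymm
  · intro v hv
    rw [b.mem_span_image]
    intro i hi
    have h1 : T v = (n : ℚ) • v := by
      have : T v - (n : ℚ) • v = 0 := by simpa using hv
      exact sub_eq_zero.1 this
    have h2 := repr_eq b T w hT v i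
    rw [h1, map_smul, Finsupp.smul_apply, smul_eq_mul] at h2
    have h3 : b.repr v i ≠ 0 := by
      simpa using hi
    have h4 := mul_right_cancel₀ h3 h2
    show w i = n
    exact_mod_cast h4.symm
  · rw [Submodule.span_le]
    rintro _ ⟨i, hi, rfl⟩
    have hi' : w i = n := hi
    show b i ∈ LinearMap.ker (T - (n : ℚ) • (LinearMap.id : V →ₗ[ℚ] V))
    rw [LinearMap.mem_ker, LinearMap.sub_apply, hT, hi']
    simp

theorem internal : DirectSum.IsInternal
    (fun n : ℤ => LinearMap.ker (T - (n : ℚ) • (LinearMap.id : V →ₗ[ℚ] V))) := by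
  rw [DirectSum.isInternal_submodule_iff_iSupIndep_and_iSup_eq_top]
  constructor
  · have h1 := (Module.End.eigenspaces_iSupIndep T).comp (f := fun n : ℤ => (n : ℚ))
      Int.cast_injective
    have h2 : (T.eigenspace ∘ fun n : ℤ => (n : ℚ)) =
        fun n : ℤ => LinearMap.ker (T - (n : ℚ) • (LinearMap.id : V →ₗ[ℚ] V)) := by
      funext n
      rw [Function.comp_apply, Module.End.eigenspace_def]
      rfl
    rw [h2] at h1
    exact h1
  · rw [eq_top_iff, ← b.span_eq, Submodule.span_le]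
    rintro _ ⟨i, rfl⟩
    have h1 : b i ∈ LinearMap.ker (T - (w i : ℚ) • (LinearMap.id : V →ₗ[ℚ] V)) := by
      rw [LinearMap.mem_ker, LinearMap.sub_apply, hT]
      simp
    exact Submodule.mem_iSup_of_mem (w i) h1

end gen

/-- the weight of a monomial -/
def wS (s : ℕ →₀ ℕ) : ℕ := s.sum fun i k => k * (i + 1)

theorem wS_ge (s : ℕ →₀ ℕ) (i : ℕ) : s i * (i + 1) ≤ wS s := by
  unfold wS Finsupp.sum
  by_cases hi : i ∈ s.support
  · exact Finset.single_le_sum (f := fun i => s i * (i + 1)) (fun _ _ => Nat.zero_le _) hi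
  · rw [Finsupp.notMem_support_iff.1 hi, zero_mul]
    exact Nat.zero_le _

theorem NN_monomial (s : ℕ →₀ ℕ) : NN (monomial s 1) = ((wS s : ℕ) : ℚ) • monomial s 1 := by
  unfold NN
  rw [mkDerivation_monomial, one_smul]
  unfold wS Finsupp.sum
  rw [Nat.cast_sum, Finset.sum_smul]
  refine Finset.sum_congr rfl fun i hi => ?_
  have h0 : s i ≠ 0 := Finsupp.mem_support_iff.1 hi
  have h1 : s - Finsupp.single i 1 + Finsupp.single i 1 = s := by
    ext j
    by_cases hj : j = i
    · subst hj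
      simp
      omega
    · simp [Finsupp.single_eq_of_ne hj]
  show monomial (s - Finsupp.single i 1) ((s i : ℕ) : ℚ) • (C ((i : ℚ) + 1) * X i) =
    (((s i * (i + 1) : ℕ)) : ℚ) • (monomial s (1 : ℚ))
  rw [smul_eq_mul, X, C_mul_monomial, monomial_mul, h1, smul_monomial]
  congr 1
  push_cast
  simp

theorem NN_bas (s : ℕ →₀ ℕ) : NN.toLinearMap (basisMonomials ℕ ℚ s) =
    (((wS s : ℕ) : ℤ) : ℚ) • basisMonomials ℕ ℚ s := by
  rw [coe_basisMonomials]
  have := NN_monomial s
  show NN (monomial s 1) = _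
  rw [this]
  simp

theorem finS (N : ℕ) : {s : ℕ →₀ ℕ | wS s ≤ N}.Finite := by
  refine Set.Finite.subset
    (Finset.finite_toSet (Finset.finsupp (Finset.range N) (fun _ => Finset.range (N + 1)))) ?_
  intro s hs
  have hs' : wS s ≤ N := hs
  rw [Finset.mem_coe, Finset.mem_finsupp_iff]
  constructor
  · intro i hi
    have h0 : s i ≠ 0 := Finsupp.mem_support_iff.1 hi
    have h1 := wS_ge s i
    rw [Finset.mem_range]
    have h2 : 1 * (i + 1) ≤ s i * (i + 1) := Nat.mul_le_mul_right _ (Nat.pos_of_ne_zero h0)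
    omega
  · intro i _
    have h1 := wS_ge s i
    rw [Finset.mem_range]
    have h2 : s i * 1 ≤ s i * (i + 1) := Nat.mul_le_mul_left _ (by omega)
    omega

theorem wt_fin (n : ℤ) : FiniteDimensional ℚ
    (LinearMap.ker (NN.toLinearMap - (n : ℚ) • (LinearMap.id : PP →ₗ[ℚ] PP))) := by
  rw [ker_eq (basisMonomials ℕ ℚ) NN.toLinearMap (fun s => (wS s : ℤ)) NN_bas n]
  refine FiniteDimensional.span_of_finite ℚ (Set.Finite.image _ ?_)
  refine (finS n.toNat).subset ?_
  intro s hs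
  have hs' : (wS s : ℤ) = n := hs
  show wS s ≤ n.toNat
  omega

theorem wt_neg (n : ℤ) (hn : n < 0) :
    LinearMap.ker (NN.toLinearMap - (n : ℚ) • (LinearMap.id : PP →ₗ[ℚ] PP)) = ⊥ := by
  rw [ker_eq (basisMonomials ℕ ℚ) NN.toLinearMap (fun s => (wS s : ℤ)) NN_bas n]
  have : {s : ℕ →₀ ℕ | (wS s : ℤ) = n} = ∅ := by
    ext s
    simp only [Set.mem_ofPred_eq, Set.mem_empty_iff_false, iff_false]
    omega
  rw [this, Set.image_empty, Submodule.span_empty]

/-- The rank one Heisenberg vertex operator algebra. -/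
theorem voa : ∃ A : VOA PP, Good A.toVertexAlgebra ∧ A.omega = om := by
  obtain ⟨A, hA⟩ := va
  refine ⟨{ A with
    omega := om
    c := 1
    virasoro := vir A hA
    deriv := ?_
    internal := ?_
    finite := ?_
    bounded := ?_ }, hA, rfl⟩
  · intro a n
    rw [om_zero A hA]
    exact hA.2.2 a n
  · rw [om_one A hA]
    exact internal (basisMonomials ℕ ℚ) NN.toLinearMap (fun s => (wS s : ℤ)) NN_bas
  · rw [om_one A hA]
    exact wt_fin
  · refine ⟨0, ?_⟩
    rw [om_one A hA]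
    exact wt_neg

end Pool.Agent.V1112.HB
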